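import Pool.Agent.UFC.St

/-!
# BRA, BRB, BRC: tuples and multisets
-/

set_option autoImplicit false

noncomputable section

namespace Pool.Agent.UFC

open Finset

namespace BR

theorem ms_inj {t : ℕ} {x y : Fin t → ℕ} (hx : Monotone x) (hy : Monotone y) (h : ms x = ms y) :
    x = y := by
  rw [ms_eq, ms_eq, Multiset.coe_eq_coe] at h
  have h1 := h.eq_of_sortedLE (List.sortedLE_ofFn_iff.2 hx) (List.sortedLE_ofFn_iff.2 hy)
  exact List.ofFn_injective h1

theorem toFinset_ms {t : ℕ} (x : Fin t → ℕ) : (ms x).toFinset = univ.image x := by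
  ext a
  rw [Multiset.mem_toFinset, mem_image]
  unfold ms
  rw [Multiset.mem_map]
  simp

theorem nodup_ms {t : ℕ} (x : Fin t → ℕ) : (ms x).Nodup ↔ Function.Injective x := by
  rw [ms_eq, Multiset.coe_nodup, List.nodup_ofFn]

theorem count_ms {t : ℕ} (x : Fin t → ℕ) (a : ℕ) :
    (ms x).count a = Fintype.card {i // x i = a} := by
  classical
  unfold ms
  rw [Multiset.count_map, Fintype.card_subtype]
  have h : (univ.filter fun i => x i = a).card = Multiset.card (univ.val.filter fun i => x i = a) :=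
    rfl
  rw [h]
  congr 1
  apply Multiset.filter_congr
  intro i _
  exact eq_comm

/-- transfer of the cardinality -/
theorem transfer {t : ℕ} (p : Multiset ℕ → Prop) :
    {x ∈ Sol t | Monotone x ∧ p (ms x)}.ncard = {σ ∈ S t | p σ}.ncard := by
  have h : {σ ∈ S t | p σ} = ms '' {x ∈ Sol t | Monotone x ∧ p (ms x)} := by
    ext σ
    constructor
    · rintro ⟨hσ, hp⟩
      obtain ⟨x, hx, hm, rfl⟩ := exists_tuple hσ
      exact ⟨x, ⟨hx, hm, hp⟩, rfl⟩
    · rintro ⟨x, ⟨hx, hm, hp⟩, rfl⟩
      exact ⟨ms_mem hx, hp⟩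
  rw [h, Set.InjOn.ncard_image]
  intro x hx y hy hxy
  exact ms_inj hx.2.1 hy.2.1 hxy

end BR

open BR

theorem t_BRA : S_BRA := by
  intro t
  refine ⟨?_, ?_, ?_⟩
  · have h := transfer (t := t) (fun _ => True)
    unfold M m
    simpa using h
  · have h := transfer (t := t) (fun σ => σ.Nodup)
    unfold F f
    rw [← h]
    congr 1
    ext x
    constructor
    · rintro ⟨h1, h2⟩
      exact ⟨h1, h2.monotone, (nodup_ms x).2 h2.injective⟩
    · rintro ⟨h1, h2, h3⟩
      exact ⟨h1, h2.strictMono_of_injective ((nodup_ms x).1 h3)⟩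
  · intro k
    have h := transfer (t := t) (fun σ => σ.toFinset.card < k)
    rw [← h]
    simp only [toFinset_ms]

/-- the number of the permutations with the same composition -/
theorem stab_card {t : ℕ} (x z : Fin t → ℕ) [DecidablePred fun π : Equiv.Perm (Fin t) => x ∘ π = z] :
    (univ.filter fun π : Equiv.Perm (Fin t) => x ∘ π = z).card ≤
      ∏ a ∈ (ms x).toFinset, ((ms x).count a).factorial := by
  classical
  have h1 : ∏ a ∈ (ms x).toFinset, ((ms x).count a).factorial =
      Fintype.card {g : Equiv.Perm (Fin t) // x ∘ g = x} := by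
    rw [DomMulAct.stabilizer_card' x, toFinset_ms]
    apply prod_congr rfl
    intro a _
    rw [count_ms]
  rw [h1, Fintype.card_subtype]
  by_cases hne : ∃ π₀ : Equiv.Perm (Fin t), x ∘ π₀ = z
  · obtain ⟨π₀, h0⟩ := hne
    refine card_le_card_of_injOn (fun π => π * π₀⁻¹) ?_ ?_
    · intro π hπ
      rw [mem_coe, mem_filter] at hπ
      rw [mem_coe, mem_filter]
      refine ⟨mem_univ _, ?_⟩
      funext i
      have e1 : (x ∘ π) (π₀⁻¹ i) = (x ∘ π₀) (π₀⁻¹ i) := by rw [hπ.2, h0]
      simpa using e1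
    · intro π _ π' _ h
      exact mul_right_cancel h
  · rw [card_eq_zero.2]
    · exact Nat.zero_le _
    · rw [filter_eq_empty_iff]
      intro π _ h
      exact hne ⟨π, h⟩

theorem ms_comp {t : ℕ} (x : Fin t → ℕ) (π : Equiv.Perm (Fin t)) : ms (x ∘ π) = ms x := by
  unfold ms
  rw [← Multiset.map_map]
  congr 1
  have h : (univ.map π.toEmbedding : Finset (Fin t)) = univ := by simp
  have h2 := congrArg Finset.val h
  rw [Finset.map_val] at h2
  exact h2

theorem sol_comp {t : ℕ} {x : Fin t → ℕ} (hx : x ∈ Sol t) (π : Equiv.Perm (Fin t)) :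
    x ∘ π ∈ Sol t := by
  refine ⟨fun i => hx.1 _, ?_⟩
  have h := Equiv.sum_comp π (fun i => (1 : ℚ) / (x i : ℚ))
  exact h.trans hx.2

/-- the ordered solutions whose sorted version is in a class with products at most `K` -/
theorem orbit_bound {t : ℕ} (p : Multiset ℕ → Prop) (K : ℕ)
    (hK : ∀ σ ∈ S t, p σ → ∏ a ∈ σ.toFinset, (σ.count a).factorial ≤ K) :
    t.factorial * {σ ∈ S t | p σ}.ncard ≤ K * {x ∈ Sol t | p (ms x)}.ncard := by
  classical
  rw [← transfer]
  have fX : {x ∈ Sol t | Monotone x ∧ p (ms x)}.Finite := (sol_fin t).subset fun x hx => hx.1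
  have fY : {x ∈ Sol t | p (ms x)}.Finite := (sol_fin t).subset fun x hx => hx.1
  set X := fX.toFinset with hX
  set Y := fY.toFinset with hY
  rw [Set.ncard_eq_toFinset_card _ fX, Set.ncard_eq_toFinset_card _ fY, ← hX, ← hY]
  have h1 : (X ×ˢ (univ : Finset (Equiv.Perm (Fin t)))).card ≤ K * Y.card := by
    refine card_le_mul_card_image_of_maps_to
      (f := fun q : (Fin t → ℕ) × Equiv.Perm (Fin t) => q.1 ∘ q.2) ?_ K ?_
    · rintro ⟨x, π⟩ hq
      rw [mem_product, hX, Set.Finite.mem_toFinset] at hq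
      rw [hY, Set.Finite.mem_toFinset]
      exact ⟨sol_comp hq.1.1 π, by
        change p (ms (x ∘ π))
        rw [ms_comp]
        exact hq.1.2.2⟩
    · intro z _
      by_cases hne : ∃ x ∈ X, ∃ π : Equiv.Perm (Fin t), x ∘ π = z
      · obtain ⟨x, hx, π₀, hπ⟩ := hne
        have hx' := hx
        rw [hX, Set.Finite.mem_toFinset] at hx'
        have e1 : (univ.filter fun π : Equiv.Perm (Fin t) => x ∘ π = z).card ≤ K :=
          (stab_card x z).trans (hK _ (ms_mem hx'.1) hx'.2.2)
        refine le_trans ?_ e1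
        refine card_le_card_of_injOn (fun q => q.2) ?_ ?_
        · rintro ⟨y, π⟩ hq
          rw [mem_coe, mem_filter, mem_product] at hq
          have hy := hq.1.1
          rw [hX, Set.Finite.mem_toFinset] at hy
          rw [mem_coe, mem_filter]
          refine ⟨mem_univ _, ?_⟩
          have e2 : ms y = ms x := by
            rw [← ms_comp y π, ← ms_comp x π₀, hπ]
            exact congrArg ms hq.2
          have e3 : y = x := ms_inj hy.2.1 hx'.2.1 e2
          rw [← e3]
          exact hq.2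
        · rintro ⟨y, π⟩ hq ⟨y', π'⟩ hq' h
          rw [mem_coe, mem_filter, mem_product] at hq hq'
          have hy := hq.1.1
          have hy' := hq'.1.1
          rw [hX, Set.Finite.mem_toFinset] at hy hy'
          simp only at h
          have e2 : ms y = ms y' := by
            rw [← ms_comp y π, ← ms_comp y' π']
            exact congrArg ms (hq.2.trans hq'.2.symm)
          exact Prod.ext (ms_inj hy.2.1 hy'.2.1 e2) h
      · rw [card_eq_zero.2]
        · exact Nat.zero_le _
        · rw [filter_eq_empty_iff]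
          rintro ⟨x, π⟩ hq h
          rw [mem_product] at hq
          exact hne ⟨x, hq.1, π, h⟩
  rw [card_product, card_univ, Fintype.card_perm, Fintype.card_fin] at h1
  calc t.factorial * X.card = X.card * t.factorial := mul_comm _ _
    _ ≤ K * Y.card := h1

theorem t_BRB : S_BRB := by
  classical
  intro t
  refine ⟨?_, ?_⟩
  · rw [← (t_BRA t).1]
    unfold N M
    have h1 : (Sol t).ncard ≤ ({x ∈ Sol t | Monotone x} ×ˢ
        (Set.univ : Set (Equiv.Perm (Fin t)))).ncard := by
      refine Set.ncard_le_ncard_of_injOn (fun x => (x ∘ Tuple.sort x, Tuple.sort x)) ?_ ?_ ?_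
      · intro x hx
        exact ⟨⟨sol_comp hx _, Tuple.monotone_sort x⟩, Set.mem_univ _⟩
      · intro x _ y _ h
        simp only [Prod.mk.injEq] at h
        obtain ⟨e1, e2⟩ := h
        rw [← e2] at e1
        funext i
        have := congrFun e1 ((Tuple.sort x)⁻¹ i)
        simpa using this
      · exact ((sol_fin t).subset fun x hx => hx.1).prod Set.finite_univ
    rw [Set.ncard_prod, Set.ncard_univ, Nat.card_eq_fintype_card, Fintype.card_perm,
      Fintype.card_fin, mul_comm] at h1
    exact h1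
  · intro K
    have h := orbit_bound (t := t) (fun σ => ∏ a ∈ σ.toFinset, (σ.count a).factorial ≤ K) K
      (fun σ _ h => h)
    refine h.trans (Nat.mul_le_mul_left _ ?_)
    unfold N
    exact Set.ncard_le_ncard (fun x hx => hx.1) (sol_fin t)

theorem t_BRC : S_BRC := by
  classical
  intro t K hK1
  have h1 := orbit_bound (t := t) (fun σ => σ.Nodup) 1 (fun σ _ h => by
    apply le_of_eq
    apply prod_eq_one
    intro a ha
    rw [Multiset.mem_toFinset] at ha
    rw [Multiset.count_eq_one_of_mem h ha, Nat.factorial_one])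
  have h2 := orbit_bound (t := t)
    (fun σ => ¬ σ.Nodup ∧ ∏ a ∈ σ.toFinset, (σ.count a).factorial ≤ K) K (fun σ _ h => h.2)
  have h3 : {x ∈ Sol t | (ms x).Nodup}.ncard +
      {x ∈ Sol t | ¬ (ms x).Nodup ∧
        ∏ a ∈ (ms x).toFinset, ((ms x).count a).factorial ≤ K}.ncard ≤ N t := by
    unfold N
    have f1 : {x ∈ Sol t | (ms x).Nodup}.Finite := (sol_fin t).subset fun x hx => hx.1
    have f2 : {x ∈ Sol t | ¬ (ms x).Nodup ∧
        ∏ a ∈ (ms x).toFinset, ((ms x).count a).factorial ≤ K}.Finite :=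
      (sol_fin t).subset fun x hx => hx.1
    rw [← Set.ncard_union_eq ?_ f1 f2]
    · refine Set.ncard_le_ncard ?_ (sol_fin t)
      rintro x (h | h)
      · exact h.1
      · exact h.1
    · rw [Set.disjoint_left]
      intro x h h'
      exact h'.2.1 h.2
  unfold f
  calc t.factorial * (K * {σ ∈ S t | σ.Nodup}.ncard + {σ ∈ S t | ¬ σ.Nodup ∧
        ∏ x ∈ σ.toFinset, (σ.count x).factorial ≤ K}.ncard)
      = K * (t.factorial * {σ ∈ S t | σ.Nodup}.ncard) + t.factorial * {σ ∈ S t | ¬ σ.Nodup ∧
        ∏ x ∈ σ.toFinset, (σ.count x).factorial ≤ K}.ncard := by ring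
    _ ≤ K * (1 * {x ∈ Sol t | (ms x).Nodup}.ncard) + K * {x ∈ Sol t | ¬ (ms x).Nodup ∧
        ∏ a ∈ (ms x).toFinset, ((ms x).count a).factorial ≤ K}.ncard :=
        Nat.add_le_add (Nat.mul_le_mul_left _ h1) h2
    _ = K * ({x ∈ Sol t | (ms x).Nodup}.ncard + {x ∈ Sol t | ¬ (ms x).Nodup ∧
        ∏ a ∈ (ms x).toFinset, ((ms x).count a).factorial ≤ K}.ncard) := by ring
    _ ≤ K * N t := Nat.mul_le_mul_left _ h3

end Pool.Agent.UFC
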