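import Pool.Agent.UFC.St

/-!
# EQ
-/

set_option autoImplicit false

noncomputable section

namespace Pool.Agent.UFC

open Finset

namespace EQ

theorem rs_rep (k x : ℕ) : rs (Multiset.replicate k x) = (k : ℚ) * (1 / (x : ℚ)) := by
  unfold rs
  rw [Multiset.map_replicate, Multiset.sum_replicate, nsmul_eq_mul]

theorem rs_eq {y : ℕ} (hy : 0 < y) :
    rs (Multiset.replicate 2 (2 * y)) = rs (Multiset.replicate 1 y) := by
  rw [rs_rep, rs_rep]
  have : (y : ℚ) ≠ 0 := by positivity
  push_cast
  field_simp

end EQ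

open EQ

theorem t_EQ : S_EQ := by
  classical
  intro t ht
  unfold ev
  rw [← card_sigma, ← card_sigma]
  refine card_nbij'
    (fun p : (_ : Multiset ℕ) × ℕ =>
      (⟨(p.1 - Multiset.replicate 2 p.2) + Multiset.replicate 1 (p.2 / 2), p.2 / 2⟩ :
        (_ : Multiset ℕ) × ℕ))
    (fun p : (_ : Multiset ℕ) × ℕ =>
      (⟨(p.1 - Multiset.replicate 1 p.2) + Multiset.replicate 2 (2 * p.2), 2 * p.2⟩ :
        (_ : Multiset ℕ) × ℕ)) ?_ ?_ ?_ ?_
  · rintro ⟨σ, x⟩ h
    rw [mem_coe, mem_sigma, mem_filter] at h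
    obtain ⟨h1, h2, h3, h4⟩ := h
    simp only at h1 h2 h3 h4
    rw [mem_Sf] at h1
    rw [Multiset.mem_toFinset] at h2
    have hx := h1.2.1 x h2
    obtain ⟨y, rfl⟩ : ∃ y, x = 2 * y := by
      obtain ⟨y, hy⟩ := h3
      exact ⟨y, by omega⟩
    have e0 : 2 * y / 2 = y := by omega
    have hle : Multiset.replicate 2 (2 * y) ≤ σ := Multiset.le_count_iff_replicate_le.1 h4
    have hc := Multiset.card_le_card hle
    rw [Multiset.card_replicate, h1.1] at hc
    rw [mem_coe, mem_sigma]
    simp only [e0]
    refine ⟨?_, by simp⟩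
    rw [mem_Sf]
    refine ⟨?_, ?_, ?_⟩
    · rw [Multiset.card_add, Multiset.card_sub hle, Multiset.card_replicate,
        Multiset.card_replicate, h1.1]
      omega
    · intro z hz
      rw [Multiset.mem_add] at hz
      rcases hz with hz | hz
      · exact h1.2.1 z (Multiset.mem_of_le (Multiset.sub_le_self _ _) hz)
      · rw [Multiset.eq_of_mem_replicate hz]
        omega
    · have e1 := h1.2.2
      rw [← tsub_add_cancel_of_le hle, rs_add, rs_eq (by omega)] at e1
      rw [rs_add]
      exact e1
  · rintro ⟨σ, y⟩ h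
    rw [mem_coe, mem_sigma] at h
    obtain ⟨h1, h2⟩ := h
    simp only at h1 h2
    rw [mem_Sf] at h1
    rw [Multiset.mem_toFinset] at h2
    have hy := h1.2.1 y h2
    have hle : Multiset.replicate 1 y ≤ σ := by
      apply Multiset.le_count_iff_replicate_le.1
      exact Multiset.one_le_count_iff_mem.2 h2
    have hc := Multiset.card_le_card hle
    rw [Multiset.card_replicate, h1.1] at hc
    rw [mem_coe, mem_sigma, mem_filter]
    simp only
    refine ⟨?_, ?_, even_two_mul y, ?_⟩
    · rw [mem_Sf]
      refine ⟨?_, ?_, ?_⟩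
      · rw [Multiset.card_add, Multiset.card_sub hle, Multiset.card_replicate,
          Multiset.card_replicate, h1.1]
        omega
      · intro z hz
        rw [Multiset.mem_add] at hz
        rcases hz with hz | hz
        · exact h1.2.1 z (Multiset.mem_of_le (Multiset.sub_le_self _ _) hz)
        · rw [Multiset.eq_of_mem_replicate hz]
          omega
      · have e1 := h1.2.2
        rw [← tsub_add_cancel_of_le hle, rs_add, ← rs_eq hy] at e1
        rw [rs_add]
        exact e1
    · simp
    · rw [Multiset.count_add, Multiset.count_replicate_self]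
      omega
  · rintro ⟨σ, x⟩ h
    rw [mem_coe, mem_sigma, mem_filter] at h
    obtain ⟨h1, h2, h3, h4⟩ := h
    simp only at h1 h2 h3 h4
    obtain ⟨y, rfl⟩ : ∃ y, x = 2 * y := by
      obtain ⟨y, hy⟩ := h3
      exact ⟨y, by omega⟩
    have e0 : 2 * y / 2 = y := by omega
    have hle : Multiset.replicate 2 (2 * y) ≤ σ := Multiset.le_count_iff_replicate_le.1 h4
    simp only [e0, add_tsub_cancel_right, tsub_add_cancel_of_le hle]
  · rintro ⟨σ, y⟩ h
    rw [mem_coe, mem_sigma] at h
    obtain ⟨h1, h2⟩ := h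
    simp only at h1 h2
    rw [Multiset.mem_toFinset] at h2
    have e0 : 2 * y / 2 = y := by omega
    have hle : Multiset.replicate 1 y ≤ σ := by
      apply Multiset.le_count_iff_replicate_le.1
      exact Multiset.one_le_count_iff_mem.2 h2
    simp only [e0, add_tsub_cancel_right, tsub_add_cancel_of_le hle]

end Pool.Agent.UFC
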