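import Pool.Agent.UFC.St

/-!
# QUAD
-/

set_option autoImplicit false

noncomputable section

namespace Pool.Agent.UFC

open Finset

theorem t_QUAD : S_QUAD := by
  classical
  intro t
  choose! x hx using fun (σ : Multiset ℕ) (h : σ ∈ {σ ∈ S t | ∃ x, Even x ∧ 4 ≤ σ.count x}) => h.2
  have hy : ∀ σ ∈ {σ ∈ S t | ∃ x, Even x ∧ 4 ≤ σ.count x}, 2 * (x σ / 2) = x σ := by
    intro σ hσ
    exact Nat.two_mul_div_two_of_even (hx σ hσ).1
  have hle : ∀ σ ∈ {σ ∈ S t | ∃ x, Even x ∧ 4 ≤ σ.count x},
      Multiset.replicate 4 (x σ) ≤ σ := by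
    intro σ hσ
    exact Multiset.le_count_iff_replicate_le.1 (hx σ hσ).2
  have h1 : {σ ∈ S t | ∃ x, Even x ∧ 4 ≤ σ.count x}.ncard ≤
      ((Sf (t - 2)).sigma fun τ => τ.toFinset).card := by
    rw [← Set.ncard_coe_finset]
    refine Set.ncard_le_ncard_of_injOn (fun σ => (⟨(σ - Multiset.replicate 4 (x σ)) +
      Multiset.replicate 2 (x σ / 2), x σ / 2⟩ : (_ : Multiset ℕ) × ℕ)) ?_ ?_
      (Finset.finite_toSet _)
    · intro σ hσ
      rw [mem_coe, mem_sigma]
      have h4 := Multiset.card_le_card (hle σ hσ)
      rw [Multiset.card_replicate, hσ.1.1] at h4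
      have hxpos : 0 < x σ := hσ.1.2.1 _ (Multiset.count_pos.1 (by
        have := (hx σ hσ).2
        omega))
      have hypos : 0 < x σ / 2 := by
        have := hy σ hσ
        omega
      refine ⟨?_, ?_⟩
      · rw [mem_Sf]
        refine ⟨?_, ?_, ?_⟩
        · rw [Multiset.card_add, Multiset.card_sub (hle σ hσ), Multiset.card_replicate,
            Multiset.card_replicate, hσ.1.1]
          omega
        · intro z hz
          rw [Multiset.mem_add] at hz
          rcases hz with hz | hz
          · exact hσ.1.2.1 z (Multiset.mem_of_le (Multiset.sub_le_self _ _) hz)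
          · rw [Multiset.eq_of_mem_replicate hz]
            exact hypos
        · have e1 := hσ.1.2.2
          rw [← tsub_add_cancel_of_le (hle σ hσ), rs_add] at e1
          rw [rs_add]
          have e2 : rs (Multiset.replicate 4 (x σ)) = rs (Multiset.replicate 2 (x σ / 2)) := by
            unfold rs
            rw [Multiset.map_replicate, Multiset.sum_replicate, Multiset.map_replicate,
              Multiset.sum_replicate, nsmul_eq_mul, nsmul_eq_mul]
            have e3 : (x σ : ℚ) = 2 * ((x σ / 2 : ℕ) : ℚ) := by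
              exact_mod_cast (hy σ hσ).symm
            have e4 : ((x σ / 2 : ℕ) : ℚ) ≠ 0 := by
              exact_mod_cast hypos.ne'
            rw [e3]
            field_simp
            norm_num
          rw [← e2]
          exact e1
      · simp
    · intro σ hσ σ' hσ' h
      simp only [Sigma.mk.injEq] at h
      obtain ⟨h1, h2⟩ := h
      have h2 := eq_of_heq h2
      have h3 : x σ = x σ' := by rw [← hy σ hσ, ← hy σ' hσ', h2]
      rw [← h3] at h1
      have h5 := add_right_cancel h1
      have h6 := hle σ' hσ'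
      rw [← h3] at h6
      rw [← tsub_add_cancel_of_le (hle σ hσ), ← tsub_add_cancel_of_le h6, h5]
  refine h1.trans ?_
  rw [card_sigma, m_eq_card]
  calc ∑ τ ∈ Sf (t - 2), τ.toFinset.card ≤ ∑ _τ ∈ Sf (t - 2), t := by
        apply sum_le_sum
        intro τ hτ
        rw [mem_Sf] at hτ
        have e1 := Multiset.toFinset_card_le τ
        rw [hτ.1] at e1
        omega
    _ = t * (Sf (t - 2)).card := by rw [sum_const, smul_eq_mul, mul_comm]

end Pool.Agent.UFC
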