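import Pool.Agent.UFC.Two

/-!
# Assembly, the inequalities between natural numbers
-/

set_option autoImplicit false

noncomputable section

namespace Pool.Agent.UFC

open Finset

theorem m_pos {t : ℕ} (ht : 1 ≤ t) : 0 < m t := by
  unfold m
  rw [Set.ncard_pos (S_fin t)]
  refine ⟨Multiset.replicate t t, Multiset.card_replicate _ _, ?_, ?_⟩
  · intro x hx
    rw [Multiset.eq_of_mem_replicate hx]
    exact ht
  · unfold rs
    rw [Multiset.map_replicate, Multiset.sum_replicate, nsmul_eq_mul]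
    have : (t : ℚ) ≠ 0 := by positivity
    field_simp

/-- the tail of the number of pairs -/
theorem A_tail {s t : ℕ} (hs : 2 ≤ s) (hst : s + 1 ≤ t) : m s * (A s t).ncard ≤ t ^ s * m t := by
  have h1 := t_PAIR s t (by omega)
  have h2 := t_SUP (s - 1) (t + 1 - s) (by omega)
  have e1 : s - 1 + 1 = s := by omega
  have e2 : s - 1 + (t + 1 - s) = t := by omega
  rw [e1, e2] at h2
  calc m s * (A s t).ncard ≤ m s * (t ^ s * m (t + 1 - s)) := Nat.mul_le_mul_left _ h1
    _ = t ^ s * (m s * m (t + 1 - s)) := by ring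
    _ ≤ t ^ s * m t := Nat.mul_le_mul_left _ h2

theorem A_small {s t u : ℕ} (hs : 2 ≤ s) (hst : s + 1 ≤ u) (hut : u ≤ t)
    (hK : 8 * t ^ (s + 2) ≤ m s) : 8 * t ^ 2 * (A s u).ncard ≤ m u := by
  have h1 := A_tail hs hst
  have h2 : u ^ s ≤ t ^ s := Nat.pow_le_pow_left hut s
  have h3 : t ^ s * (8 * t ^ 2 * (A s u).ncard) ≤ t ^ s * m u := by
    calc t ^ s * (8 * t ^ 2 * (A s u).ncard) = (8 * t ^ (s + 2)) * (A s u).ncard := by ring
      _ ≤ m s * (A s u).ncard := Nat.mul_le_mul_right _ hK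
      _ ≤ u ^ s * m u := h1
      _ ≤ t ^ s * m u := Nat.mul_le_mul_right _ h2
  exact Nat.le_of_mul_le_mul_left h3 (Nat.pow_pos (by omega))

theorem ev_le_card (σ : Multiset ℕ) : ev σ ≤ σ.toFinset.card := card_filter_le _ _

theorem mem_A_of_ev {s t : ℕ} {σ : Multiset ℕ} (hσ : σ ∈ S t) (h : s ≤ ev σ) : σ ∈ A s t := by
  classical
  obtain ⟨P, hP, hc⟩ := ONE.exists_sub (s := s)
    (Q := (σ.toFinset.filter fun x => Even x ∧ 2 ≤ σ.count x).val) h
  refine ⟨hσ, P, hc, (add_le_add hP hP).trans ?_⟩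
  rw [Multiset.le_iff_count]
  intro a
  rw [Multiset.count_add]
  by_cases ha : a ∈ σ.toFinset.filter fun x => Even x ∧ 2 ≤ σ.count x
  · have h1 := (mem_filter.1 ha).2.2
    have h2 : (σ.toFinset.filter fun x => Even x ∧ 2 ≤ σ.count x).val.count a ≤ 1 :=
      Multiset.nodup_iff_count_le_one.1 (Finset.nodup _) a
    omega
  · have h2 : (σ.toFinset.filter fun x => Even x ∧ 2 ≤ σ.count x).val.count a = 0 :=
      Multiset.count_eq_zero_of_notMem ha
    omega

theorem A_ncard (s t : ℕ) [DecidablePred (· ∈ A s t)] :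
    (A s t).ncard = ((Sf t).filter (· ∈ A s t)).card := by
  rw [← Set.ncard_coe_finset]
  congr 1
  ext σ
  rw [mem_coe, mem_filter, mem_Sf]
  exact ⟨fun h => ⟨h.1, h⟩, fun h => h.2⟩

/-- growth in one step -/
theorem growth (hEQ : S_EQ) {s t : ℕ} (hs : 2 ≤ s) (hst : 16 * s + 16 ≤ t)
    (hK : 8 * t ^ (s + 2) ≤ m s) : t * m (t - 1) ≤ 2 * (s + 1) * m t := by
  classical
  have ha := A_small (u := t) hs (by omega) le_rfl hK
  have ha' := A_small (u := t - 1) hs (by omega) (by omega) hK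
  have h1 : ∑ σ ∈ Sf t, ev σ ≤ s * m t + t * (A s t).ncard := by
    calc ∑ σ ∈ Sf t, ev σ ≤ ∑ σ ∈ Sf t, (s + if σ ∈ A s t then t else 0) := by
          apply sum_le_sum
          intro σ hσ
          rw [mem_Sf] at hσ
          split_ifs with h
          · have e1 := ev_le_card σ
            have e2 := Multiset.toFinset_card_le σ
            rw [hσ.1] at e2
            omega
          · by_contra hlt
            exact h (mem_A_of_ev hσ (by omega))
      _ = s * m t + t * (A s t).ncard := by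
          rw [sum_add_distrib, sum_const, ← sum_filter, sum_const, smul_eq_mul, smul_eq_mul,
            m_eq_card, A_ncard, mul_comm, mul_comm t]
  have h2 : (t - 1 - 2 * s) * m (t - 1) ≤
      ∑ σ ∈ Sf (t - 1), σ.toFinset.card + (t - 1 - 2 * s) * (A s (t - 1)).ncard := by
    calc (t - 1 - 2 * s) * m (t - 1) = ∑ _σ ∈ Sf (t - 1), (t - 1 - 2 * s) := by
          rw [sum_const, smul_eq_mul, m_eq_card, mul_comm]
      _ ≤ ∑ σ ∈ Sf (t - 1), (σ.toFinset.card + if σ ∈ A s (t - 1) then t - 1 - 2 * s else 0) := by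
          apply sum_le_sum
          intro σ hσ
          rw [mem_Sf] at hσ
          split_ifs with h
          · omega
          · by_contra hlt
            exact h (t_DST s (t - 1) σ hσ (by omega))
      _ = ∑ σ ∈ Sf (t - 1), σ.toFinset.card + (t - 1 - 2 * s) * (A s (t - 1)).ncard := by
          rw [sum_add_distrib, ← sum_filter, sum_const, smul_eq_mul, A_ncard,
            mul_comm (t - 1 - 2 * s)]
  rw [← hEQ t (by omega)] at h2
  have h3 : t * (A s t).ncard ≤ m t := by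
    have e1 : t * (A s t).ncard ≤ 8 * t ^ 2 * (A s t).ncard := by
      apply Nat.mul_le_mul_right
      nlinarith
    exact e1.trans ha
  have h4 : (t - 1 - 2 * s) * (A s (t - 1)).ncard ≤ m (t - 1) := by
    have e1 : (t - 1 - 2 * s) * (A s (t - 1)).ncard ≤ 8 * t ^ 2 * (A s (t - 1)).ncard := by
      apply Nat.mul_le_mul_right
      have : t - 1 - 2 * s ≤ t := by omega
      nlinarith
    exact e1.trans ha'
  obtain ⟨k, hk⟩ : ∃ k, t - 1 - 2 * s = k + 1 := ⟨t - 2 - 2 * s, by omega⟩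
  rw [hk] at h2 h4
  have h5 : k * m (t - 1) ≤ (s + 1) * m t := by
    have e1 : (k + 1) * m (t - 1) = k * m (t - 1) + m (t - 1) := by ring
    have e2 : (s + 1) * m t = s * m t + m t := by ring
    omega
  calc t * m (t - 1) ≤ 2 * k * m (t - 1) := Nat.mul_le_mul_right _ (by omega)
    _ = 2 * (k * m (t - 1)) := by ring
    _ ≤ 2 * ((s + 1) * m t) := Nat.mul_le_mul_left _ h5
    _ = 2 * (s + 1) * m t := by ring

/-- few solutions have a denominator of multiplicity at least `4` -/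
theorem four_card (hQUAD : S_QUAD) {t : ℕ} :
    {σ ∈ S t | ∃ x, 4 ≤ σ.count x}.ncard ≤ t * m (t - 2) + m (t - 1) := by
  have h1 := hQUAD t
  have h2 := t_ODD 2 t (by norm_num)
  have e2 : t + 1 - 2 = t - 1 := by omega
  rw [e2] at h2
  have hsub : {σ ∈ S t | ∃ x, 4 ≤ σ.count x} ⊆ {σ ∈ S t | ∃ x, Even x ∧ 4 ≤ σ.count x} ∪
      {σ ∈ S t | ∃ P : Multiset ℕ, Multiset.card P = 2 ∧ (∀ x ∈ P, Odd x) ∧ P + P ≤ σ} := by
    rintro σ ⟨hσ, x, hx⟩
    rcases Nat.even_or_odd x with he | ho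
    · exact Or.inl ⟨hσ, x, he, hx⟩
    · refine Or.inr ⟨hσ, {x, x}, rfl, ?_, ?_⟩
      · intro y hy
        simp at hy
        rw [hy]
        exact ho
      · rw [Multiset.le_iff_count]
        intro a
        by_cases ha : a = x
        · subst ha
          simp
          omega
        · have e1 : Multiset.count a ({x, x} : Multiset ℕ) = 0 := by
            rw [Multiset.count_eq_zero]
            simp [ha]
          rw [Multiset.count_add, e1]
          omega
  have hfin : ({σ ∈ S t | ∃ x, Even x ∧ 4 ≤ σ.count x} ∪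
      {σ ∈ S t | ∃ P : Multiset ℕ, Multiset.card P = 2 ∧ (∀ x ∈ P, Odd x) ∧ P + P ≤ σ}).Finite := by
    apply (S_fin t).subset
    rintro σ (h | h)
    · exact h.1
    · exact h.1
  have h3 := Set.ncard_le_ncard hsub hfin
  have h4 := Set.ncard_union_le {σ ∈ S t | ∃ x, Even x ∧ 4 ≤ σ.count x}
      {σ ∈ S t | ∃ P : Multiset ℕ, Multiset.card P = 2 ∧ (∀ x ∈ P, Odd x) ∧ P + P ≤ σ}
  omega

/-- the ordered and the unordered solutions -/
theorem polylog (hEQ : S_EQ) (hQUAD : S_QUAD) (hBRB : S_BRB) {s t : ℕ} (hs : 2 ≤ s)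
    (hst : 40 * (s + 1) ^ 2 ≤ t) (hK : 8 * t ^ (s + 2) ≤ m s) :
    t.factorial * m t ≤ 2 * 6 ^ s * N t := by
  classical
  have hst1 : 16 * s + 17 ≤ t := by nlinarith
  have ha := A_small (u := t) hs (by omega) le_rfl hK
  have hg := growth hEQ hs (by omega) hK
  have hg' := growth hEQ (s := s) (t := t - 1) hs (by omega)
    (le_trans (Nat.mul_le_mul_left 8 (Nat.pow_le_pow_left (by omega) _)) hK)
  have e1 : t - 1 - 1 = t - 2 := by omega
  rw [e1] at hg'
  have h4 := four_card hQUAD (t := t)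
  have h5 : t * m (t - 2) ≤ 4 * (s + 1) * m (t - 1) := by
    have : t ≤ 2 * (t - 1) := by omega
    calc t * m (t - 2) ≤ 2 * (t - 1) * m (t - 2) := Nat.mul_le_mul_right _ this
      _ = 2 * ((t - 1) * m (t - 2)) := by ring
      _ ≤ 2 * (2 * (s + 1) * m (t - 1)) := Nat.mul_le_mul_left _ hg'
      _ = 4 * (s + 1) * m (t - 1) := by ring
  have h6 : 4 * {σ ∈ S t | ∃ x, 4 ≤ σ.count x}.ncard ≤ m t := by
    have b1 : {σ ∈ S t | ∃ x, 4 ≤ σ.count x}.ncard ≤ 5 * (s + 1) * m (t - 1) := by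
      have : 5 * (s + 1) * m (t - 1) = 4 * (s + 1) * m (t - 1) + (s * m (t - 1) + m (t - 1)) := by
        ring
      have h0 : 0 ≤ s * m (t - 1) := Nat.zero_le _
      omega
    have b2 : t * (4 * {σ ∈ S t | ∃ x, 4 ≤ σ.count x}.ncard) ≤ t * m t := by
      calc t * (4 * {σ ∈ S t | ∃ x, 4 ≤ σ.count x}.ncard)
          ≤ t * (4 * (5 * (s + 1) * m (t - 1))) :=
            Nat.mul_le_mul_left _ (Nat.mul_le_mul_left _ b1)
        _ = 20 * (s + 1) * (t * m (t - 1)) := by ring
        _ ≤ 20 * (s + 1) * (2 * (s + 1) * m t) := Nat.mul_le_mul_left _ hg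
        _ = 40 * (s + 1) ^ 2 * m t := by ring
        _ ≤ t * m t := Nat.mul_le_mul_right _ hst
    exact Nat.le_of_mul_le_mul_left b2 (by omega)
  have h7 : 4 * (A s t).ncard ≤ m t := by
    have : 4 * (A s t).ncard ≤ 8 * t ^ 2 * (A s t).ncard := by
      apply Nat.mul_le_mul_right
      nlinarith
    exact this.trans ha
  have h8 : m t ≤ 2 * {σ ∈ S t | ∏ x ∈ σ.toFinset, (σ.count x).factorial ≤ 6 ^ s}.ncard := by
    have hsub : S t ⊆ {σ ∈ S t | ∏ x ∈ σ.toFinset, (σ.count x).factorial ≤ 6 ^ s} ∪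
        (A s t ∪ {σ ∈ S t | ∃ x, 4 ≤ σ.count x}) := by
      intro σ hσ
      by_cases c1 : σ ∈ A s t
      · exact Or.inr (Or.inl c1)
      by_cases c2 : ∃ x, 4 ≤ σ.count x
      · exact Or.inr (Or.inr ⟨hσ, c2⟩)
      · exact Or.inl ⟨hσ, t_PRD s t σ hσ c1 fun x => by
          by_contra h
          exact c2 ⟨x, by omega⟩⟩
    have hfin : ({σ ∈ S t | ∏ x ∈ σ.toFinset, (σ.count x).factorial ≤ 6 ^ s} ∪
        (A s t ∪ {σ ∈ S t | ∃ x, 4 ≤ σ.count x})).Finite := by
      apply (S_fin t).subset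
      rintro σ (h | h | h)
      · exact h.1
      · exact h.1
      · exact h.1
    have c1 := Set.ncard_le_ncard hsub hfin
    have c2 := Set.ncard_union_le {σ ∈ S t | ∏ x ∈ σ.toFinset, (σ.count x).factorial ≤ 6 ^ s}
        (A s t ∪ {σ ∈ S t | ∃ x, 4 ≤ σ.count x})
    have c3 := Set.ncard_union_le (A s t) {σ ∈ S t | ∃ x, 4 ≤ σ.count x}
    change m t ≤ _ at c1
    omega
  have h9 := (hBRB t).2 (6 ^ s)
  calc t.factorial * m t
      ≤ t.factorial * (2 * {σ ∈ S t | ∏ x ∈ σ.toFinset, (σ.count x).factorial ≤ 6 ^ s}.ncard) :=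
        Nat.mul_le_mul_left _ h8
    _ = 2 * (t.factorial *
        {σ ∈ S t | ∏ x ∈ σ.toFinset, (σ.count x).factorial ≤ 6 ^ s}.ncard) := by ring
    _ ≤ 2 * (6 ^ s * N t) := Nat.mul_le_mul_left _ h9
    _ = 2 * 6 ^ s * N t := by ring

/-- iterating STAR -/
theorem iter_star (hEQ : S_EQ) {t : ℕ} : ∀ j : ℕ, j + 2 ≤ t →
    m t ≤ 2 * j * t ^ j * f t + t ^ j * m (t - j) := by
  intro j
  induction j with
  | zero =>
    intro _
    simp
  | succ j ih =>
    intro hj
    have h1 := ih (by omega)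
    have h2 := (t_STAR hEQ (t - j) (by omega)).1
    have h3 : f (t - j) ≤ f t := f_mono (by omega) (by omega)
    have e1 : t - j - 1 = t - (j + 1) := by omega
    rw [e1] at h2
    have h4 : m (t - j) ≤ 2 * f t + t * m (t - (j + 1)) := by
      have : (t - j) * m (t - (j + 1)) ≤ t * m (t - (j + 1)) :=
        Nat.mul_le_mul_right _ (by omega)
      omega
    have h5 : t ^ j ≤ t ^ (j + 1) := Nat.pow_le_pow_right (by omega) (by omega)
    calc m t ≤ 2 * j * t ^ j * f t + t ^ j * m (t - j) := h1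
      _ ≤ 2 * j * t ^ j * f t + t ^ j * (2 * f t + t * m (t - (j + 1))) :=
          Nat.add_le_add_left (Nat.mul_le_mul_left _ h4) _
      _ = 2 * (j + 1) * t ^ j * f t + t ^ (j + 1) * m (t - (j + 1)) := by ring
      _ ≤ 2 * (j + 1) * t ^ (j + 1) * f t + t ^ (j + 1) * m (t - (j + 1)) := by
          apply Nat.add_le_add_right
          apply Nat.mul_le_mul_right
          exact Nat.mul_le_mul_left _ h5

/-- distinct denominators, all `t` -/
theorem m_le_f (hEQ : S_EQ) {s t : ℕ} (hs : 2 ≤ s) (hst : 16 * s + 16 ≤ t)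
    (hK : 8 * t ^ (s + 2) ≤ m s) : m t ≤ t ^ (s + 1) * f t := by
  have h1 := iter_star hEQ (t := t) (s - 1) (by omega)
  have h2 := t_SUP (s - 1) (t + 1 - s) (by omega)
  have e1 : s - 1 + 1 = s := by omega
  have e2 : s - 1 + (t + 1 - s) = t := by omega
  have e3 : t - (s - 1) = t + 1 - s := by omega
  rw [e1, e2] at h2
  rw [e3] at h1
  have h3 : t ^ (s - 1) ≤ t ^ s := Nat.pow_le_pow_right (by omega) (by omega)
  have h4 : 8 * (t ^ (s - 1) * m (t + 1 - s)) ≤ m t := by
    calc 8 * (t ^ (s - 1) * m (t + 1 - s)) ≤ 8 * t ^ (s + 2) * m (t + 1 - s) := by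
          rw [← mul_assoc]
          apply Nat.mul_le_mul_right
          apply Nat.mul_le_mul_left
          exact Nat.pow_le_pow_right (by omega) (by omega)
      _ ≤ m s * m (t + 1 - s) := Nat.mul_le_mul_right _ hK
      _ ≤ m t := h2
  have h5 : m t ≤ 4 * (s - 1) * t ^ (s - 1) * f t := by
    have : 4 * (s - 1) * t ^ (s - 1) * f t = 2 * (2 * (s - 1) * t ^ (s - 1) * f t) := by ring
    omega
  calc m t ≤ 4 * (s - 1) * t ^ (s - 1) * f t := h5
    _ ≤ t * t ^ s * f t := by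
        apply Nat.mul_le_mul_right
        exact Nat.mul_le_mul (by omega) h3
    _ = t ^ (s + 1) * f t := by ring

/-- a good value in every window -/
theorem window {s t : ℕ} (hs : 2 ≤ s) (hst : 16 * s + 16 ≤ t) (hK : t ^ (8 * s + 8) ≤ m s) :
    ∃ u, t ≤ u ∧ u ≤ t + s ∧ u ^ 4 * m (u - 1) ≤ m u := by
  by_contra hcon
  push Not at hcon
  have h1 : ∀ j, j + 1 ≤ s → m (t + j) ≤ (t + s) ^ (4 * j) * m t := by
    intro j
    induction j with
    | zero =>
      intro _
      simp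
    | succ j ih =>
      intro hj
      have h2 := ih (by omega)
      have h3 := hcon (t + (j + 1)) (by omega) (by omega)
      have e1 : t + (j + 1) - 1 = t + j := by omega
      rw [e1] at h3
      calc m (t + (j + 1)) ≤ (t + (j + 1)) ^ 4 * m (t + j) := h3.le
        _ ≤ (t + s) ^ 4 * ((t + s) ^ (4 * j) * m t) :=
            Nat.mul_le_mul (Nat.pow_le_pow_left (by omega) 4) h2
        _ = (t + s) ^ (4 * (j + 1)) * m t := by ring
  have h2 := h1 (s - 1) (by omega)
  have h3 := t_SUP (s - 1) t (by omega)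
  have e1 : s - 1 + 1 = s := by omega
  have e2 : s - 1 + t = t + (s - 1) := by omega
  rw [e1, e2] at h3
  have h4 : m s * m t ≤ (t + s) ^ (4 * (s - 1)) * m t := h3.trans h2
  have h5 : m s ≤ (t + s) ^ (4 * (s - 1)) := Nat.le_of_mul_le_mul_right h4 (m_pos (by omega))
  have h6 : (t + s) ^ (4 * (s - 1)) < t ^ (8 * s + 8) := by
    have e3 : t + s ≤ t ^ 2 := by nlinarith
    calc (t + s) ^ (4 * (s - 1)) ≤ (t ^ 2) ^ (4 * (s - 1)) := Nat.pow_le_pow_left e3 _
      _ = t ^ (8 * (s - 1)) := by rw [← pow_mul]; congr 1; ring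
      _ < t ^ (8 * s + 8) := Nat.pow_lt_pow_right (by omega) (by omega)
  omega

end Pool.Agent.UFC
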