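import Pool.Agent.UFC.Sup

/-!
# Supermultiplicativity for distinct denominators
-/

set_option autoImplicit false

noncomputable section

namespace Pool.Agent.UFC

open Finset

theorem im_nodup {r t : ℕ} (ht : 2 ≤ t) {κ σ : Multiset ℕ} (hκ : κ ∈ S (r + 1)) (hσ : σ ∈ S t)
    (h1 : κ.Nodup) (h2 : σ.Nodup) : (SUP.im (κ, σ)).Nodup := by
  have h0 := SUP.mx_mem (SUP.ne_zero hκ)
  have hpos := hκ.2.1 _ h0
  unfold SUP.im
  rw [Multiset.nodup_add]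
  refine ⟨h1.erase _, h2.map (fun a b hab => Nat.eq_of_mul_eq_mul_left hpos hab), ?_⟩
  rw [Multiset.disjoint_left]
  intro x hx hx2
  have h3 : x ≤ SUP.mx κ := SUP.le_mx (Multiset.mem_of_mem_erase hx)
  rw [Multiset.mem_map] at hx2
  obtain ⟨y, hy, rfl⟩ := hx2
  have := two_le ht hσ hy
  simp only at h3
  nlinarith

theorem f_SUP : ∀ r t : ℕ, 2 ≤ t → f (r + 1) * f t ≤ f (r + t) := by
  intro r t ht
  unfold f
  rw [← Set.ncard_prod]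
  refine Set.ncard_le_ncard_of_injOn SUP.im ?_ ?_ ((S_fin _).subset fun σ hσ => hσ.1)
  · rintro ⟨κ, σ⟩ ⟨hκ, hσ⟩
    exact ⟨SUP.im_mem hκ.1 hσ.1, im_nodup ht hκ.1 hσ.1 hκ.2 hσ.2⟩
  · rintro ⟨κ, σ⟩ ⟨hκ, hσ⟩ ⟨κ', σ'⟩ ⟨hκ', hσ'⟩ h
    rcases le_total (SUP.mx κ) (SUP.mx κ') with hle | hle
    · obtain ⟨h1, h2⟩ := SUP.inj_aux ht hκ.1 hσ.1 hκ'.1 hσ'.1 h hle
      exact Prod.ext h1 h2
    · obtain ⟨h1, h2⟩ := SUP.inj_aux ht hκ'.1 hσ'.1 hκ.1 hσ.1 h.symm hle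
      exact Prod.ext h1.symm h2.symm

end Pool.Agent.UFC
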