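import Pool.Agent.UFC.Asm1
import Pool.Agent.UFC.Sup2

/-!
# Assembly: the analytic form
-/

set_option autoImplicit false

noncomputable section

namespace Pool.Agent.UFC

open Finset Filter

/-- The final statement. -/
def Final : Prop :=
  (∀ r t : ℕ, 2 ≤ t → M (r + 1) * M t ≤ M (r + t) ∧ F (r + 1) * F t ≤ F (r + t)) ∧
  (∀ t : ℕ, 2 ≤ t → M t ≤ 2 * F t + t * M (t - 1)) ∧
  ∃ C : ℝ, 0 < C ∧ ∃ t₀ : ℕ, ∀ t : ℕ, t₀ ≤ t →
    N t ≤ t.factorial * M t ∧
    ((t.factorial * M t : ℕ) : ℝ) ≤ Real.log t ^ C * (N t : ℝ) ∧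
    (t : ℝ) * (M (t - 1) : ℝ) ≤ C * Real.log (Real.log t) * (M t : ℝ) ∧
    (M t : ℝ) ≤ Real.exp (C * Real.log t * Real.log (Real.log t)) * (F t : ℝ) ∧
    (∀ u : ℕ, t + C * Real.log (Real.log t) ≤ (u : ℝ) → M t ≤ F u) ∧
    ({x ∈ Sol t | Monotone x ∧
      ((univ.image x).card : ℝ) < t - C * Real.log (Real.log t)}.ncard : ℝ) ≤
        Real.exp (-(Real.log t) ^ 2) * (M t : ℝ) ∧
    ∃ u : ℕ, t ≤ u ∧ (u : ℝ) ≤ t + C * Real.log (Real.log t) ∧
      (1 / 2 - 1 / (u : ℝ)) * (M u : ℝ) ≤ (F u : ℝ) ∧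
      (7 / 12 - 1 / (u : ℝ)) * ((u.factorial * M u : ℕ) : ℝ) ≤ (N u : ℝ)

/-- the parameter -/
def sp (t : ℕ) : ℕ := ⌈1200 * Real.log (Real.log t)⌉₊

/-- the conditions on `t` -/
structure Cond (t : ℕ) : Prop where
  x_ge : 400000000 ≤ Real.log t
  L_ge : 1 ≤ Real.log (Real.log t)
  s_two : 2 ≤ sp t
  s_le : (sp t : ℝ) ≤ 1201 * Real.log (Real.log t)
  keyf : Real.exp (Real.log t ^ 2) * (t : ℝ) ^ (8 * sp t + 9) ≤ (f (sp t) : ℝ)
  s_sq : 40 * (sp t + 1) ^ 2 ≤ t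

theorem f_le_m (t : ℕ) : f t ≤ m t := Set.ncard_le_ncard (fun _ h => h.1) (S_fin t)

/-- The doubly exponential lower bound for distinct denominators, from the bridge. -/
theorem growf (hBRA : S_BRA) :
    ∃ t₀ : ℕ, ∀ t ≥ t₀, Real.exp (Real.exp ((t : ℝ) / 400)) ≤ (f t : ℝ) := by
  have hfin : ∀ t, (Pool.Agent.Lib_helper83.EF.IncSol t).Finite := fun t =>
    (sol_fin t).subset (Pool.Agent.Lib_helper83.EF.incSol_subset t)
  obtain ⟨t₀, h⟩ := Pool.Agent.Lib_helper83.EF.inc_lower Pool.Agent.Lib_helper77.EF.ls hfin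
  refine ⟨t₀, fun t ht => (h t ht).trans ?_⟩
  rw [← (hBRA t).2.1]
  have h1 : (Pool.Agent.Lib_helper83.EF.IncSol t).ncard ≤ F t := by
    unfold F
    refine Set.ncard_le_ncard ?_ ((sol_fin t).subset fun x hx => hx.1)
    intro x hx
    exact ⟨hx.2, hx.1⟩
  exact_mod_cast h1

theorem cond (hBRA : S_BRA) : ∀ᶠ t : ℕ in atTop, Cond t := by
  obtain ⟨t₀, h0⟩ := growf hBRA
  have hx : Tendsto (fun t : ℕ => Real.log (t : ℝ)) atTop atTop :=
    Real.tendsto_log_atTop.comp tendsto_natCast_atTop_atTop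
  have hL : Tendsto (fun t : ℕ => Real.log (Real.log (t : ℝ))) atTop atTop :=
    Real.tendsto_log_atTop.comp hx
  filter_upwards [hx.eventually_ge_atTop 400000000, hL.eventually_ge_atTop ((t₀ : ℝ) + 1),
    eventually_ge_atTop 1] with t h1 h2 h3
  have ht0 : (0 : ℝ) ≤ t₀ := Nat.cast_nonneg _
  set x := Real.log (t : ℝ) with hxdef
  set L := Real.log x with hLdef
  have hL1 : 1 ≤ L := by linarith
  have hxpos : 0 < x := by linarith
  have hLx : L ≤ x := (Real.log_le_sub_one_of_pos hxpos).trans (by linarith)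
  have hs1 : 1200 * L ≤ sp t := Nat.le_ceil _
  have hs2 : (sp t : ℝ) < 1200 * L + 1 := Nat.ceil_lt_add_one (by linarith)
  have htpos : (0 : ℝ) < t := by exact_mod_cast h3
  have ht : (t : ℝ) = Real.exp x := (Real.exp_log htpos).symm
  refine ⟨h1, hL1, ?_, by linarith, ?_, ?_⟩
  · have : (2 : ℝ) ≤ sp t := by linarith
    exact_mod_cast this
  · have hst0 : t₀ ≤ sp t := by
      have : (t₀ : ℝ) ≤ sp t := by linarith
      exact_mod_cast this
    refine le_trans ?_ (h0 (sp t) hst0)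
    have e1 : x ^ 3 ≤ Real.exp ((sp t : ℝ) / 400) := by
      have : x ^ 3 = Real.exp (3 * L) := by
        rw [show (3 : ℝ) * L = ((3 : ℕ) : ℝ) * L by norm_num, Real.exp_nat_mul,
          Real.exp_log hxpos]
      rw [this]
      apply Real.exp_le_exp.2
      linarith
    have e2 : Real.exp (x ^ 2) * (t : ℝ) ^ (8 * sp t + 9) =
        Real.exp (x ^ 2 + ((8 * sp t + 9 : ℕ) : ℝ) * x) := by
      rw [Real.exp_add, Real.exp_nat_mul, ← ht]
    rw [e2]
    apply Real.exp_le_exp.2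
    refine le_trans ?_ e1
    push_cast
    have e3 : 8 * (sp t : ℝ) + 9 ≤ 9617 * x := by nlinarith
    have e4 : (8 * (sp t : ℝ) + 9) * x ≤ 9617 * x * x := mul_le_mul_of_nonneg_right e3 hxpos.le
    have e5 : x ^ 2 + 9617 * x * x ≤ x ^ 3 := by
      have : x ^ 3 - (x ^ 2 + 9617 * x * x) = x ^ 2 * (x - 9618) := by ring
      have h5 : 0 ≤ x ^ 2 * (x - 9618) := mul_nonneg (sq_nonneg x) (by linarith)
      linarith
    linarith
  · have e1 : ((sp t : ℝ) + 1) ≤ 1202 * x := by linarith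
    have e2 : 40 * ((sp t : ℝ) + 1) ^ 2 ≤ 40 * (1202 * x) ^ 2 := by
      have h4 : (0 : ℝ) ≤ (sp t : ℝ) + 1 := by positivity
      have := pow_le_pow_left₀ h4 e1 2
      linarith
    have e3 : x ^ 3 / 6 ≤ Real.exp x := by
      have := Real.pow_div_factorial_le_exp x hxpos.le 3
      have h6 : ((Nat.factorial 3 : ℕ) : ℝ) = 6 := by norm_num [Nat.factorial]
      rw [h6] at this
      exact this
    have e4 : 40 * (1202 * x) ^ 2 ≤ x ^ 3 / 6 := by
      have : x ^ 3 / 6 - 40 * (1202 * x) ^ 2 = x ^ 2 * (x / 6 - 57792160) := by ring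
      have h5 : 0 ≤ x ^ 2 * (x / 6 - 57792160) := mul_nonneg (sq_nonneg x) (by linarith)
      linarith
    have e5 : 40 * ((sp t : ℝ) + 1) ^ 2 ≤ t := by
      rw [ht]
      linarith
    exact_mod_cast e5

theorem Cond.t_ge {t : ℕ} (h : Cond t) : 40 ≤ t := by
  have := h.s_sq
  nlinarith [h.s_two]

theorem Cond.key {t : ℕ} (h : Cond t) :
    Real.exp (Real.log t ^ 2) * (t : ℝ) ^ (8 * sp t + 9) ≤ (m (sp t) : ℝ) :=
  h.keyf.trans (by exact_mod_cast f_le_m (sp t))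

theorem Cond.nat_key {t : ℕ} (h : Cond t) : t ^ (8 * sp t + 9) ≤ f (sp t) := by
  have h1 := h.keyf
  have h2 : (1 : ℝ) ≤ Real.exp (Real.log t ^ 2) := Real.one_le_exp (sq_nonneg _)
  have h3 : (t : ℝ) ^ (8 * sp t + 9) ≤ (f (sp t) : ℝ) := by
    refine le_trans ?_ h1
    have : (0 : ℝ) ≤ (t : ℝ) ^ (8 * sp t + 9) := by positivity
    nlinarith
  exact_mod_cast h3

theorem Cond.key8 {t : ℕ} (h : Cond t) : 8 * t ^ (sp t + 2) ≤ m (sp t) := by
  refine le_trans ?_ (h.nat_key.trans (f_le_m _))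
  have h1 := h.t_ge
  calc 8 * t ^ (sp t + 2) ≤ t * t ^ (sp t + 2) := Nat.mul_le_mul_right _ (by omega)
    _ = t ^ (sp t + 3) := by ring
    _ ≤ t ^ (8 * sp t + 9) := Nat.pow_le_pow_right (by omega) (by omega)

theorem Cond.st {t : ℕ} (h : Cond t) : 16 * sp t + 16 ≤ t := by
  have := h.s_sq
  nlinarith [h.s_two]

theorem part2 (hEQ : S_EQ) (hQUAD : S_QUAD) (hBRB : S_BRB) {t : ℕ} (h : Cond t) :
    ((t.factorial * m t : ℕ) : ℝ) ≤ Real.log t ^ (5000 : ℝ) * (N t : ℝ) := by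
  have h1 := polylog hEQ hQUAD hBRB h.s_two h.s_sq h.key8
  have h2 : ((t.factorial * m t : ℕ) : ℝ) ≤ ((2 * 6 ^ sp t * N t : ℕ) : ℝ) := by exact_mod_cast h1
  refine h2.trans ?_
  push_cast
  apply mul_le_mul_of_nonneg_right _ (Nat.cast_nonneg _)
  have hx := h.x_ge
  have hL := h.L_ge
  have hs := h.s_le
  have hxpos : 0 < Real.log (t : ℝ) := by linarith
  rw [Real.rpow_def_of_pos hxpos]
  have e6 : (6 : ℝ) ≤ Real.exp 2 := by
    have := Real.exp_one_gt_d9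
    have h3 : Real.exp 2 = Real.exp 1 * Real.exp 1 := by rw [← Real.exp_add]; norm_num
    rw [h3]
    nlinarith
  have e2 : (2 : ℝ) ≤ Real.exp 1 := by
    have := Real.exp_one_gt_d9
    linarith
  calc (2 : ℝ) * 6 ^ sp t ≤ Real.exp 1 * (Real.exp 2) ^ sp t := by
        apply mul_le_mul e2 (pow_le_pow_left₀ (by norm_num) e6 _) (by positivity)
          (Real.exp_pos _).le
    _ = Real.exp (1 + (sp t : ℝ) * 2) := by rw [Real.exp_add, Real.exp_nat_mul]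
    _ ≤ Real.exp (Real.log (Real.log t) * 5000) := by
        apply Real.exp_le_exp.2
        linarith

theorem part3 (hEQ : S_EQ) {t : ℕ} (h : Cond t) :
    (t : ℝ) * (m (t - 1) : ℝ) ≤ 5000 * Real.log (Real.log t) * (m t : ℝ) := by
  have h1 := growth hEQ h.s_two h.st h.key8
  have h2 : ((t * m (t - 1) : ℕ) : ℝ) ≤ ((2 * (sp t + 1) * m t : ℕ) : ℝ) := by exact_mod_cast h1
  push_cast at h2
  refine h2.trans ?_
  apply mul_le_mul_of_nonneg_right _ (Nat.cast_nonneg _)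
  have hL := h.L_ge
  have hs := h.s_le
  linarith

theorem part4 (hEQ : S_EQ) {t : ℕ} (h : Cond t) :
    (m t : ℝ) ≤ Real.exp (5000 * Real.log t * Real.log (Real.log t)) * (f t : ℝ) := by
  have h1 := m_le_f hEQ h.s_two h.st h.key8
  have h2 : (m t : ℝ) ≤ ((t ^ (sp t + 1) * f t : ℕ) : ℝ) := by exact_mod_cast h1
  push_cast at h2
  refine h2.trans ?_
  apply mul_le_mul_of_nonneg_right _ (Nat.cast_nonneg _)
  have htpos : (0 : ℝ) < t := by
    have := h.t_ge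
    exact_mod_cast (by omega : 0 < t)
  have e1 : (t : ℝ) ^ (sp t + 1) = Real.exp (((sp t + 1 : ℕ) : ℝ) * Real.log t) := by
    rw [Real.exp_nat_mul, Real.exp_log htpos]
  rw [e1]
  apply Real.exp_le_exp.2
  push_cast
  have hL := h.L_ge
  have hs := h.s_le
  have hx : 0 < Real.log (t : ℝ) := by linarith [h.x_ge]
  have e2 : (sp t : ℝ) + 1 ≤ 5000 * Real.log (Real.log t) := by linarith
  calc ((sp t : ℝ) + 1) * Real.log t ≤ 5000 * Real.log (Real.log t) * Real.log t :=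
        mul_le_mul_of_nonneg_right e2 hx.le
    _ = 5000 * Real.log t * Real.log (Real.log t) := by ring

theorem part5 (hBRA : S_BRA) {t : ℕ} (h : Cond t) :
    ({x ∈ Sol t | Monotone x ∧
      ((univ.image x).card : ℝ) < t - 5000 * Real.log (Real.log t)}.ncard : ℝ) ≤
        Real.exp (-(Real.log t) ^ 2) * (m t : ℝ) := by
  set k := ⌈(t : ℝ) - 5000 * Real.log (Real.log t)⌉₊ with hk
  have e1 : {x ∈ Sol t | Monotone x ∧
      ((univ.image x).card : ℝ) < t - 5000 * Real.log (Real.log t)} =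
      {x ∈ Sol t | Monotone x ∧ (univ.image x).card < k} := by
    ext x
    simp only [Set.mem_ofPred_eq, hk, Nat.lt_ceil]
  rw [e1, (hBRA t).2.2 k]
  have hsub : {σ ∈ S t | σ.toFinset.card < k} ⊆ A (sp t) t := by
    rintro σ ⟨hσ, hc⟩
    rw [hk, Nat.lt_ceil] at hc
    apply t_DST (sp t) t σ hσ
    have hL := h.L_ge
    have hs := h.s_le
    have : ((σ.toFinset.card + 2 * sp t : ℕ) : ℝ) ≤ (t : ℝ) := by
      push_cast
      linarith
    exact_mod_cast this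
  have h1 : {σ ∈ S t | σ.toFinset.card < k}.ncard ≤ (A (sp t) t).ncard :=
    Set.ncard_le_ncard hsub ((S_fin t).subset fun σ hσ => hσ.1)
  have h2 := A_tail (s := sp t) (t := t) h.s_two (by have := h.st; omega)
  have h3 : ((m (sp t) * (A (sp t) t).ncard : ℕ) : ℝ) ≤ ((t ^ sp t * m t : ℕ) : ℝ) := by
    exact_mod_cast h2
  push_cast at h3
  have htpos : (0 : ℝ) < t := by
    have := h.t_ge
    exact_mod_cast (by omega : 0 < t)
  have ht1 : (1 : ℝ) ≤ t := by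
    have := h.t_ge
    exact_mod_cast (by omega : 1 ≤ t)
  have hkey := h.key
  have h4 : (t : ℝ) ^ sp t ≤ (t : ℝ) ^ (8 * sp t + 9) := pow_le_pow_right₀ ht1 (by omega)
  have h5 : Real.exp (Real.log t ^ 2) * (t : ℝ) ^ sp t ≤ (m (sp t) : ℝ) :=
    (mul_le_mul_of_nonneg_left h4 (Real.exp_pos _).le).trans hkey
  have h6 : Real.exp (Real.log t ^ 2) * (t : ℝ) ^ sp t * ((A (sp t) t).ncard : ℝ) ≤
      (t : ℝ) ^ sp t * (m t : ℝ) :=
    (mul_le_mul_of_nonneg_right h5 (Nat.cast_nonneg _)).trans h3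
  have hpow : (0 : ℝ) < (t : ℝ) ^ sp t := by positivity
  have h7 : Real.exp (Real.log t ^ 2) * ((A (sp t) t).ncard : ℝ) ≤ (m t : ℝ) := by
    have : (t : ℝ) ^ sp t * (Real.exp (Real.log t ^ 2) * ((A (sp t) t).ncard : ℝ)) ≤
        (t : ℝ) ^ sp t * (m t : ℝ) := by linarith
    exact le_of_mul_le_mul_left this hpow
  have h8 : ({σ ∈ S t | σ.toFinset.card < k}.ncard : ℝ) ≤ ((A (sp t) t).ncard : ℝ) := by
    exact_mod_cast h1
  refine h8.trans ?_
  rw [Real.exp_neg, ← div_eq_inv_mul, le_div_iff₀ (Real.exp_pos _)]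
  linarith

theorem part6 (hEQ : S_EQ) (hBRC : S_BRC) {t : ℕ} (h : Cond t) :
    ∃ u : ℕ, t ≤ u ∧ (u : ℝ) ≤ t + 5000 * Real.log (Real.log t) ∧
      (1 / 2 - 1 / (u : ℝ)) * (m u : ℝ) ≤ (f u : ℝ) ∧
      (7 / 12 - 1 / (u : ℝ)) * ((u.factorial * m u : ℕ) : ℝ) ≤ (N u : ℝ) := by
  obtain ⟨u, h1, h2, h3⟩ := window (t := t) h.s_two h.st
    (((Nat.pow_le_pow_right (by have := h.t_ge; omega) (by omega)).trans h.nat_key).trans
      (f_le_m _))
  have ht := h.t_ge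
  have hu : (40 : ℝ) ≤ u := by exact_mod_cast (by omega : 40 ≤ u)
  have hL := h.L_ge
  have hs := h.s_le
  have hstar := (t_STAR hEQ u (by omega)).1
  have hbad := bad_card hEQ (t := u) (by omega)
  have hbrc := hBRC u 6 (by norm_num)
  -- `u * m (u-1) ≤ m u / u`
  have h4 : (u : ℝ) * (m (u - 1) : ℝ) ≤ (m u : ℝ) / u := by
    have e1 : ((u ^ 4 * m (u - 1) : ℕ) : ℝ) ≤ (m u : ℝ) := by exact_mod_cast h3
    push_cast at e1
    rw [le_div_iff₀ (by linarith)]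
    have e2 : (u : ℝ) * (m (u - 1) : ℝ) * u ≤ (u : ℝ) ^ 4 * (m (u - 1) : ℝ) := by
      have e3 : (u : ℝ) ^ 2 ≤ (u : ℝ) ^ 4 := pow_le_pow_right₀ (by linarith) (by norm_num)
      have e4 : (0 : ℝ) ≤ (m (u - 1) : ℝ) := Nat.cast_nonneg _
      nlinarith [mul_le_mul_of_nonneg_right e3 e4]
    linarith
  have hm0 : (0 : ℝ) ≤ (m u : ℝ) := Nat.cast_nonneg _
  have hstar' : (m u : ℝ) ≤ 2 * (f u : ℝ) + (u : ℝ) * (m (u - 1) : ℝ) := by exact_mod_cast hstar
  refine ⟨u, h1, ?_, ?_, ?_⟩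
  · have : (u : ℝ) ≤ (t : ℝ) + (sp t : ℝ) := by exact_mod_cast h2
    linarith
  · have e1 : (1 / 2 - 1 / (u : ℝ)) * (m u : ℝ) = (m u : ℝ) / 2 - (m u : ℝ) / u := by ring
    rw [e1]
    have e2 : 0 ≤ (m u : ℝ) / u := by positivity
    linarith
  · set P := {σ ∈ S u | ¬ σ.Nodup ∧ ∏ x ∈ σ.toFinset, (σ.count x).factorial ≤ 6}.ncard with hP
    have hbad' : (m u : ℝ) ≤ (f u : ℝ) + (P : ℝ) + (u : ℝ) * (m (u - 1) : ℝ) := by
      exact_mod_cast hbad
    have hbrc' : (u.factorial : ℝ) * (6 * (f u : ℝ) + (P : ℝ)) ≤ 6 * (N u : ℝ) := by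
      exact_mod_cast hbrc
    push_cast
    have hfac : (0 : ℝ) ≤ (u.factorial : ℝ) := Nat.cast_nonneg _
    have e1 : 7 / 2 * ((m u : ℝ) - (m u : ℝ) / u) ≤ 6 * (f u : ℝ) + (P : ℝ) := by
      have e2 : 0 ≤ (m u : ℝ) / u := by positivity
      linarith
    have e3 : (u.factorial : ℝ) * (7 / 2 * ((m u : ℝ) - (m u : ℝ) / u)) ≤ 6 * (N u : ℝ) :=
      (mul_le_mul_of_nonneg_left e1 hfac).trans hbrc'
    have e4 : (7 / 12 - 1 / (u : ℝ)) * ((u.factorial : ℝ) * (m u : ℝ)) ≤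
        (u.factorial : ℝ) * (7 / 12 * ((m u : ℝ) - (m u : ℝ) / u)) := by
      have e5 : (u.factorial : ℝ) * (7 / 12 * ((m u : ℝ) - (m u : ℝ) / u)) -
          (7 / 12 - 1 / (u : ℝ)) * ((u.factorial : ℝ) * (m u : ℝ)) =
          (u.factorial : ℝ) * (5 / 12 * ((m u : ℝ) / u)) := by ring
      have e6 : 0 ≤ (u.factorial : ℝ) * (5 / 12 * ((m u : ℝ) / u)) := by positivity
      linarith
    linarith

theorem part7 (hEQ : S_EQ) {t : ℕ} (h : Cond t) (u : ℕ)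
    (hu : t + 5000 * Real.log (Real.log t) ≤ (u : ℝ)) : m t ≤ f u := by
  have h1 := m_le_f hEQ h.s_two h.st h.key8
  have ht := h.t_ge
  have h2 : t ^ (sp t + 1) ≤ f (sp t + 1) := by
    refine le_trans ?_ (f_mono (t := sp t) (u := sp t + 1) h.s_two (by omega))
    refine le_trans ?_ h.nat_key
    exact Nat.pow_le_pow_right (by omega) (by omega)
  have h3 := f_SUP (sp t) t (by omega)
  have h4 : sp t + t ≤ u := by
    have hL := h.L_ge
    have hs := h.s_le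
    have : ((sp t + t : ℕ) : ℝ) ≤ (u : ℝ) := by
      push_cast
      linarith
    exact_mod_cast this
  calc m t ≤ t ^ (sp t + 1) * f t := h1
    _ ≤ f (sp t + 1) * f t := Nat.mul_le_mul_right _ h2
    _ ≤ f (sp t + t) := h3
    _ ≤ f u := f_mono (by omega) h4

theorem final (hEQ : S_EQ) (hQUAD : S_QUAD) (hBRA : S_BRA) (hBRB : S_BRB) (hBRC : S_BRC) :
    Final := by
  have hM : ∀ t, M t = m t := fun t => (hBRA t).1
  have hF : ∀ t, F t = f t := fun t => (hBRA t).2.1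
  refine ⟨?_, ?_, 5000, by norm_num, ?_⟩
  · intro r t ht
    rw [hM, hM, hM, hF, hF, hF]
    exact ⟨t_SUP r t ht, f_SUP r t ht⟩
  · intro t ht
    rw [hM, hM, hF]
    exact (t_STAR hEQ t ht).1
  · obtain ⟨t₀, h0⟩ := eventually_atTop.1 (cond hBRA)
    refine ⟨t₀, fun t ht => ?_⟩
    have h := h0 t ht
    rw [hM, hM, hF]
    refine ⟨(hBRB t).1, part2 hEQ hQUAD hBRB h, part3 hEQ h, part4 hEQ h, ?_, part5 hBRA h, ?_⟩
    · intro u hu
      rw [hF]
      exact part7 hEQ h u hu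
    obtain ⟨u, h1, h2, h3, h4⟩ := part6 hEQ hBRC h
    refine ⟨u, h1, h2, ?_, ?_⟩
    · rw [hM, hF]
      exact h3
    · rw [hM]
      exact h4

end Pool.Agent.UFC
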