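import Mathlib
import Pool.Agent.Lib_helper63.EF.UB

/-!
# Comparison of the counting functions of `1 = ∑ 1 / x_i` (MP_dcc108_nt)

Solutions are handled as multisets.  `S t` : multisets of `t` positive integers whose reciprocals sum to
`1`; `m t` their number (this is `M(t)`), `f t` the number of those without repeated elements (`F(t)`).
-/

set_option autoImplicit false

noncomputable section

namespace Pool.Agent.UFC

open Finset

/-- The sum of the reciprocals. -/
def rs (σ : Multiset ℕ) : ℚ := (σ.map fun x : ℕ => (1 : ℚ) / (x : ℚ)).sum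

/-- The solutions with `t` terms, up to permutation. -/
def S (t : ℕ) : Set (Multiset ℕ) := {σ | Multiset.card σ = t ∧ (∀ x ∈ σ, 0 < x) ∧ rs σ = 1}

/-- The ordered solutions. -/
def Sol (t : ℕ) : Set (Fin t → ℕ) :=
  {x | (∀ i, 0 < x i) ∧ ∑ i, (1 : ℚ) / (x i : ℚ) = 1}

/-- The number of ordered solutions. -/
def N (t : ℕ) : ℕ := (Sol t).ncard

/-- The number of non-decreasing solutions. -/
def M (t : ℕ) : ℕ := {x ∈ Sol t | Monotone x}.ncard

/-- The number of strictly increasing solutions. -/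
def F (t : ℕ) : ℕ := {x ∈ Sol t | StrictMono x}.ncard

theorem sol_fin (t : ℕ) : (Sol t).Finite := Pool.Agent.Lib_helper63.EF.ub.1 t

theorem mem_S {t : ℕ} {σ : Multiset ℕ} :
    σ ∈ S t ↔ Multiset.card σ = t ∧ (∀ x ∈ σ, 0 < x) ∧ rs σ = 1 := Iff.rfl

/-- The multiset of a tuple. -/
def ms {t : ℕ} (x : Fin t → ℕ) : Multiset ℕ := (univ : Finset (Fin t)).val.map x

theorem ms_eq {t : ℕ} (x : Fin t → ℕ) : ms x = (List.ofFn x : Multiset ℕ) := by
  unfold ms
  rw [Fin.univ_val_map]

theorem ms_mem {t : ℕ} {x : Fin t → ℕ} (hx : x ∈ Sol t) : ms x ∈ S t := by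
  refine ⟨?_, ?_, ?_⟩
  · unfold ms
    rw [Multiset.card_map, card_val, card_univ, Fintype.card_fin]
  · intro a ha
    unfold ms at ha
    rw [Multiset.mem_map] at ha
    obtain ⟨i, -, rfl⟩ := ha
    exact hx.1 i
  · unfold rs ms
    rw [Multiset.map_map]
    exact hx.2

theorem exists_tuple {t : ℕ} {σ : Multiset ℕ} (hσ : σ ∈ S t) :
    ∃ x ∈ Sol t, Monotone x ∧ ms x = σ := by
  obtain ⟨h1, h2, h3⟩ := hσ
  have hl : (σ.sort (· ≤ ·)).length = t := (Multiset.length_sort _).trans h1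
  obtain ⟨l, hle⟩ : ∃ l, l = σ.sort (· ≤ ·) := ⟨_, rfl⟩
  have hp : l.Pairwise (· ≤ ·) := by
    rw [hle]
    exact Multiset.pairwise_sort σ (· ≤ ·)
  have hs : (l : Multiset ℕ) = σ := by
    rw [hle]
    exact Multiset.sort_eq σ (· ≤ ·)
  rw [← hle] at hl
  subst hl
  have hms : ms (fun i => l.get i) = σ := by
    rw [ms_eq, ← hs]
    congr 1
    exact List.ofFn_get l
  refine ⟨fun i => l.get i, ⟨?_, ?_⟩, ?_, hms⟩
  · intro i
    apply h2
    rw [← hs]
    exact List.get_mem l i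
  · rw [← hms] at h3
    unfold rs ms at h3
    rw [Multiset.map_map] at h3
    exact h3
  · intro i j hij
    rcases hij.eq_or_lt with h | h
    · rw [h]
    · exact List.pairwise_iff_get.1 hp i j h

theorem S_fin (t : ℕ) : (S t).Finite := by
  refine ((sol_fin t).image ms).subset ?_
  intro σ hσ
  obtain ⟨x, hx, -, rfl⟩ := exists_tuple hσ
  exact ⟨x, hx, rfl⟩

/-- The solutions as a finite set. -/
def Sf (t : ℕ) : Finset (Multiset ℕ) := (S_fin t).toFinset

theorem mem_Sf {t : ℕ} {σ : Multiset ℕ} : σ ∈ Sf t ↔ σ ∈ S t := Set.Finite.mem_toFinset _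

/-- The number of solutions up to permutation. -/
def m (t : ℕ) : ℕ := (S t).ncard

/-- The number of solutions with distinct denominators. -/
def f (t : ℕ) : ℕ := {σ ∈ S t | σ.Nodup}.ncard

theorem m_eq_card (t : ℕ) : m t = (Sf t).card := by
  unfold m Sf
  exact Set.ncard_eq_toFinset_card _ _

/-- The solutions with `s` disjoint pairs of equal denominators. -/
def A (s t : ℕ) : Set (Multiset ℕ) :=
  {σ ∈ S t | ∃ P : Multiset ℕ, Multiset.card P = s ∧ P + P ≤ σ}

/-- The number of even denominators which are repeated. -/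
def ev (σ : Multiset ℕ) : ℕ := (σ.toFinset.filter fun x => Even x ∧ 2 ≤ σ.count x).card

/-! ## Elementary facts -/

theorem rs_add (σ τ : Multiset ℕ) : rs (σ + τ) = rs σ + rs τ := by
  unfold rs
  rw [Multiset.map_add, Multiset.sum_add]

theorem rs_cons (a : ℕ) (σ : Multiset ℕ) : rs (a ::ₘ σ) = 1 / (a : ℚ) + rs σ := by
  unfold rs
  rw [Multiset.map_cons, Multiset.sum_cons]

theorem rs_zero : rs 0 = 0 := rfl

theorem rs_map_mul (a : ℕ) (σ : Multiset ℕ) : rs (σ.map (a * ·)) = 1 / (a : ℚ) * rs σ := by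
  unfold rs
  rw [Multiset.map_map, ← Multiset.sum_map_mul_left]
  congr 1
  apply Multiset.map_congr rfl
  intro x _
  simp only [Function.comp]
  push_cast
  rw [one_div, one_div, one_div, mul_inv]

theorem rs_nonneg (σ : Multiset ℕ) : 0 ≤ rs σ := by
  unfold rs
  apply Multiset.sum_nonneg
  intro x hx
  rw [Multiset.mem_map] at hx
  obtain ⟨a, -, rfl⟩ := hx
  positivity

theorem rs_pos {σ : Multiset ℕ} (h : ∀ x ∈ σ, 0 < x) (h0 : σ ≠ 0) : 0 < rs σ := by
  obtain ⟨a, ha⟩ := Multiset.exists_mem_of_ne_zero h0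
  obtain ⟨τ, rfl⟩ := Multiset.exists_cons_of_mem ha
  rw [rs_cons]
  have h1 : (0 : ℚ) < 1 / (a : ℚ) := by
    have := h a ha
    positivity
  linarith [rs_nonneg τ]

/-- for `t ≥ 2` all denominators are at least `2` -/
theorem two_le {t : ℕ} (ht : 2 ≤ t) {σ : Multiset ℕ} (hσ : σ ∈ S t) {x : ℕ} (hx : x ∈ σ) : 2 ≤ x := by
  obtain ⟨h1, h2, h3⟩ := hσ
  have hx0 := h2 x hx
  by_contra hlt
  have hx1 : x = 1 := by omega
  subst hx1
  obtain ⟨τ, rfl⟩ := Multiset.exists_cons_of_mem hx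
  rw [rs_cons] at h3
  have h4 : τ ≠ 0 := by
    rintro rfl
    simp at h1
    omega
  have h5 := rs_pos (σ := τ) (fun x hx => h2 x (Multiset.mem_cons_of_mem hx)) h4
  push_cast at h3
  linarith

end Pool.Agent.UFC
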