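import Pool.Agent.UFC.Pair

/-!
# ONE, STAR, DST, PRD
-/

set_option autoImplicit false

noncomputable section

namespace Pool.Agent.UFC

open Finset

namespace ONE

theorem exists_sub {s : ℕ} {Q : Multiset ℕ} (h : s ≤ Multiset.card Q) :
    ∃ P ≤ Q, Multiset.card P = s := by
  have h1 : 0 < Multiset.card (Multiset.powersetCard s Q) := by
    rw [Multiset.card_powersetCard]
    exact Nat.choose_pos h
  obtain ⟨P, hP⟩ := Multiset.card_pos_iff_exists_mem.1 h1
  rw [Multiset.mem_powersetCard] at hP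
  exact ⟨P, hP.1, hP.2⟩

/-- the multiset of the pairs -/
def Q (σ : Multiset ℕ) : Multiset ℕ := ∑ x ∈ σ.toFinset, Multiset.replicate (σ.count x / 2) x

theorem count_Q (σ : Multiset ℕ) (a : ℕ) : (Q σ).count a = σ.count a / 2 := by
  unfold Q
  rw [Multiset.count_sum']
  have h : ∀ x ∈ σ.toFinset, (Multiset.replicate (σ.count x / 2) x).count a =
      if x = a then σ.count a / 2 else 0 := by
    intro x _
    rw [Multiset.count_replicate]
    split_ifs with h
    · rw [h]
    · rfl
  rw [sum_congr rfl h, sum_ite_eq']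
  split_ifs with h1
  · rfl
  · rw [Multiset.mem_toFinset] at h1
    rw [Multiset.count_eq_zero_of_notMem h1, Nat.zero_div]

theorem card_Q (σ : Multiset ℕ) :
    Multiset.card σ ≤ 2 * Multiset.card (Q σ) + σ.toFinset.card := by
  have h1 : Multiset.card (Q σ) = ∑ x ∈ σ.toFinset, σ.count x / 2 := by
    unfold Q
    rw [Multiset.card_sum]
    simp
  rw [h1, ← Multiset.toFinset_sum_count_eq σ, mul_sum, card_eq_sum_ones, ← sum_add_distrib]
  apply sum_le_sum
  intro x _
  omega

theorem add_Q (σ : Multiset ℕ) : Q σ + Q σ ≤ σ := by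
  rw [Multiset.le_iff_count]
  intro a
  rw [Multiset.count_add, count_Q]
  omega

end ONE

open ONE

theorem t_DST : S_DST := by
  intro s t σ hσ h
  have h1 := card_Q σ
  rw [hσ.1] at h1
  obtain ⟨P, hP, hc⟩ := exists_sub (s := s) (Q := Q σ) (by omega)
  exact ⟨hσ, P, hc, (add_le_add hP hP).trans (add_Q σ)⟩

theorem t_PRD : S_PRD := by
  classical
  intro s t σ hσ hA h4
  set R := σ.toFinset.filter fun x => 2 ≤ σ.count x with hR
  have hRR : R.val + R.val ≤ σ := by
    rw [Multiset.le_iff_count]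
    intro a
    rw [Multiset.count_add]
    by_cases ha : a ∈ R
    · have h1 : 2 ≤ σ.count a := (mem_filter.1 ha).2
      have h2 : R.val.count a ≤ 1 := Multiset.nodup_iff_count_le_one.1 R.nodup a
      omega
    · have h2 : R.val.count a = 0 := Multiset.count_eq_zero_of_notMem ha
      omega
  have hc : R.card < s := by
    by_contra hlt
    rw [not_lt] at hlt
    obtain ⟨P, hP, hcard⟩ := exists_sub (s := s) (Q := R.val) hlt
    exact hA ⟨hσ, P, hcard, (add_le_add hP hP).trans hRR⟩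
  have h1 : ∏ x ∈ σ.toFinset, (σ.count x).factorial =
      ∏ x ∈ R, (σ.count x).factorial := by
    symm
    apply prod_subset (filter_subset _ _)
    intro x hx hxR
    rw [Multiset.mem_toFinset] at hx
    have h2 : ¬ 2 ≤ σ.count x := fun h => hxR (mem_filter.2 ⟨Multiset.mem_toFinset.2 hx, h⟩)
    have h3 : 1 ≤ σ.count x := Multiset.one_le_count_iff_mem.2 hx
    have h5 : σ.count x = 1 := by omega
    rw [h5, Nat.factorial_one]
  rw [h1]
  calc ∏ x ∈ R, (σ.count x).factorial ≤ ∏ _x ∈ R, 6 := by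
        apply prod_le_prod'
        intro x _
        have := h4 x
        calc (σ.count x).factorial ≤ (3 : ℕ).factorial := Nat.factorial_le (by omega)
          _ = 6 := rfl
    _ = 6 ^ R.card := by rw [prod_const]
    _ ≤ 6 ^ s := Nat.pow_le_pow_right (by norm_num) hc.le

theorem t_ONE : S_ONE := by
  classical
  intro t ht
  have key : ∀ σ ∈ {σ ∈ S t | ¬ σ.Nodup ∧ ev σ = 0 ∧
      ¬ ∃ P : Multiset ℕ, Multiset.card P = 2 ∧ (∀ x ∈ P, Odd x) ∧ P + P ≤ σ},
      ∃ x, Odd x ∧ 2 ≤ σ.count x ∧ σ.count x ≤ 3 ∧ ∀ y, y ≠ x → σ.count y ≤ 1 := by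
    rintro σ ⟨hσ, hnd, hev, hP⟩
    rw [Multiset.nodup_iff_count_le_one, not_forall] at hnd
    obtain ⟨x, hx⟩ := hnd
    rw [not_le] at hx
    have hodd : ∀ y, 2 ≤ σ.count y → Odd y := by
      intro y hy
      by_contra ho
      rw [Nat.not_odd_iff_even] at ho
      unfold ev at hev
      rw [card_eq_zero, filter_eq_empty_iff] at hev
      exact hev (Multiset.mem_toFinset.2 (Multiset.count_pos.1 (by omega))) ⟨ho, hy⟩
    refine ⟨x, hodd x hx, hx, ?_, ?_⟩
    · by_contra h3
      apply hP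
      refine ⟨{x, x}, rfl, ?_, ?_⟩
      · intro y hy
        simp at hy
        rw [hy]
        exact hodd x hx
      · rw [Multiset.le_iff_count]
        intro a
        by_cases ha : a = x
        · subst ha
          simp
          omega
        · have e1 : Multiset.count a ({x, x} : Multiset ℕ) = 0 := by
            rw [Multiset.count_eq_zero]
            simp [ha]
          rw [Multiset.count_add, e1]
          omega
    · intro y hy
      by_contra h3
      rw [not_le] at h3
      apply hP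
      refine ⟨{x, y}, rfl, ?_, ?_⟩
      · intro z hz
        simp at hz
        rcases hz with rfl | rfl
        · exact hodd _ hx
        · exact hodd _ h3
      · rw [Multiset.le_iff_count]
        intro a
        rw [Multiset.count_add]
        have e1 : ({x, y} : Multiset ℕ).count a ≤ 1 := by
          apply Multiset.nodup_iff_count_le_one.1
          simp [Ne.symm hy]
        by_cases ha : a ∈ ({x, y} : Multiset ℕ)
        · simp at ha
          rcases ha with rfl | rfl
          · omega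
          · omega
        · rw [Multiset.count_eq_zero_of_notMem ha]
          omega
  choose! x hx using key
  unfold f
  refine Set.ncard_le_ncard_of_injOn (fun σ => PAIR.mh {x σ} σ) ?_ ?_
    ((S_fin t).subset fun σ hσ => hσ.1)
  · intro σ hσ
    obtain ⟨h1, h2, h3, h4⟩ := hx σ hσ
    have hle : ({x σ} : Multiset ℕ) + {x σ} ≤ σ := by
      rw [Multiset.le_iff_count]
      intro a
      rw [Multiset.count_add, Multiset.count_singleton]
      split_ifs with ha
      · rw [ha]
        omega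
      · omega
    refine ⟨?_, ?_⟩
    · have := PAIR.mh_mem hσ.1 hle (by simp)
      simpa using this
    · unfold PAIR.mh
      have hd : (σ - ({x σ} + {x σ})).Nodup := by
        rw [Multiset.nodup_iff_count_le_one]
        intro a
        rw [Multiset.count_sub, Multiset.count_add, Multiset.count_singleton]
        split_ifs with ha
        · rw [ha]
          omega
        · have := h4 a ha
          omega
      have hd2 : ((σ - ({x σ} + {x σ})).map (2 * ·)).Nodup :=
        hd.map (fun a b hab => Nat.eq_of_mul_eq_mul_left (by norm_num) hab)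
      rw [Multiset.nodup_cons]
      refine ⟨?_, ?_⟩
      · rw [Multiset.mem_add, Multiset.mem_singleton, Multiset.mem_map]
        rintro (h5 | ⟨y, hy, h5⟩)
        · rw [← h5] at h1
          exact absurd h1 (by decide)
        · have h6 := two_le ht hσ.1 (Multiset.mem_of_le (Multiset.sub_le_self _ _) hy)
          omega
      · rw [Multiset.nodup_add]
        refine ⟨Multiset.nodup_singleton _, hd2, ?_⟩
        rw [Multiset.disjoint_left]
        intro a ha ha2
        rw [Multiset.mem_singleton] at ha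
        rw [Multiset.mem_map] at ha2
        obtain ⟨y, -, h5⟩ := ha2
        rw [ha] at h5
        rw [← h5] at h1
        exact absurd h1 (by rw [Nat.not_odd_iff_even]; exact even_two_mul y)
  · intro σ hσ σ' hσ' h
    simp only at h
    obtain ⟨h1, h2, h3, h4⟩ := hx σ hσ
    obtain ⟨h1', h2', h3', h4'⟩ := hx σ' hσ'
    have e1 := PAIR.filter_mh (P := {x σ}) (σ := σ) (by intro y hy; rw [Multiset.mem_singleton] at hy; rw [hy]; exact h1)
    have e2 := PAIR.filter_mh (P := {x σ'}) (σ := σ') (by intro y hy; rw [Multiset.mem_singleton] at hy; rw [hy]; exact h1')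
    have e3 : ({x σ} : Multiset ℕ) = {x σ'} := by rw [← e1, ← e2, h]
    have hle : ∀ (τ : Multiset ℕ) (a : ℕ), 2 ≤ τ.count a → ({a} : Multiset ℕ) + {a} ≤ τ := by
      intro τ a ha2
      rw [Multiset.le_iff_count]
      intro b
      rw [Multiset.count_add, Multiset.count_singleton]
      split_ifs with hb
      · rw [hb]
        omega
      · omega
    have l1 := hle σ (x σ) h2
    have l2 := hle σ' (x σ') h2'
    rw [← e3] at h l2
    exact PAIR.mh_inj l1 l2 h

theorem t_STAR (hEQ : S_EQ) : S_STAR := by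
  classical
  intro t ht
  have h1 : {σ ∈ S t | 1 ≤ ev σ}.ncard ≤ (t - 1) * m (t - 1) := by
    have e1 : {σ ∈ S t | 1 ≤ ev σ} = (((Sf t).filter fun σ => 1 ≤ ev σ : Finset (Multiset ℕ)) :
        Set (Multiset ℕ)) := by
      ext σ
      rw [mem_coe, mem_filter, mem_Sf]
      rfl
    rw [e1, Set.ncard_coe_finset, card_eq_sum_ones]
    calc ∑ σ ∈ (Sf t).filter (fun σ => 1 ≤ ev σ), 1
        ≤ ∑ σ ∈ (Sf t).filter (fun σ => 1 ≤ ev σ), ev σ :=
          sum_le_sum fun σ hσ => (mem_filter.1 hσ).2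
      _ ≤ ∑ σ ∈ Sf t, ev σ := sum_le_sum_of_subset (filter_subset _ _)
      _ = ∑ σ ∈ Sf (t - 1), σ.toFinset.card := hEQ t (by omega)
      _ ≤ ∑ σ ∈ Sf (t - 1), (t - 1) := by
          apply sum_le_sum
          intro σ hσ
          rw [mem_Sf] at hσ
          exact (Multiset.toFinset_card_le σ).trans hσ.1.le
      _ = (t - 1) * m (t - 1) := by rw [sum_const, smul_eq_mul, m_eq_card, mul_comm]
  have h2 := t_ODD 2 t (by norm_num)
  have e2 : t + 1 - 2 = t - 1 := by omega
  rw [e2] at h2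
  have h3 := t_ONE t ht
  have h4 : {σ ∈ S t | ¬ σ.Nodup}.ncard ≤ f t + t * m (t - 1) := by
    have hsub : {σ ∈ S t | ¬ σ.Nodup} ⊆ {σ ∈ S t | 1 ≤ ev σ} ∪
        ({σ ∈ S t | ∃ P : Multiset ℕ, Multiset.card P = 2 ∧ (∀ x ∈ P, Odd x) ∧ P + P ≤ σ} ∪
        {σ ∈ S t | ¬ σ.Nodup ∧ ev σ = 0 ∧
          ¬ ∃ P : Multiset ℕ, Multiset.card P = 2 ∧ (∀ x ∈ P, Odd x) ∧ P + P ≤ σ}) := by
      rintro σ ⟨hσ, hnd⟩
      by_cases c1 : 1 ≤ ev σ
      · exact Or.inl ⟨hσ, c1⟩
      by_cases c2 : ∃ P : Multiset ℕ, Multiset.card P = 2 ∧ (∀ x ∈ P, Odd x) ∧ P + P ≤ σ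
      · exact Or.inr (Or.inl ⟨hσ, c2⟩)
      · exact Or.inr (Or.inr ⟨hσ, hnd, by omega, c2⟩)
    have hfin : ({σ ∈ S t | 1 ≤ ev σ} ∪
        ({σ ∈ S t | ∃ P : Multiset ℕ, Multiset.card P = 2 ∧ (∀ x ∈ P, Odd x) ∧ P + P ≤ σ} ∪
        {σ ∈ S t | ¬ σ.Nodup ∧ ev σ = 0 ∧
          ¬ ∃ P : Multiset ℕ, Multiset.card P = 2 ∧ (∀ x ∈ P, Odd x) ∧ P + P ≤ σ})).Finite := by
      apply (S_fin t).subset
      rintro σ (h | h | h)
      · exact h.1
      · exact h.1
      · exact h.1
    have h5 := Set.ncard_le_ncard hsub hfin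
    have h6 := Set.ncard_union_le {σ ∈ S t | 1 ≤ ev σ}
      ({σ ∈ S t | ∃ P : Multiset ℕ, Multiset.card P = 2 ∧ (∀ x ∈ P, Odd x) ∧ P + P ≤ σ} ∪
        {σ ∈ S t | ¬ σ.Nodup ∧ ev σ = 0 ∧
          ¬ ∃ P : Multiset ℕ, Multiset.card P = 2 ∧ (∀ x ∈ P, Odd x) ∧ P + P ≤ σ})
    have h7 := Set.ncard_union_le
      {σ ∈ S t | ∃ P : Multiset ℕ, Multiset.card P = 2 ∧ (∀ x ∈ P, Odd x) ∧ P + P ≤ σ}
      {σ ∈ S t | ¬ σ.Nodup ∧ ev σ = 0 ∧
          ¬ ∃ P : Multiset ℕ, Multiset.card P = 2 ∧ (∀ x ∈ P, Odd x) ∧ P + P ≤ σ}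
    obtain ⟨u, rfl⟩ : ∃ u, t = u + 1 := ⟨t - 1, by omega⟩
    rw [Nat.add_sub_cancel] at h1 h2 ⊢
    have h8 : (u + 1) * m u = u * m u + m u := by ring
    omega
  refine ⟨?_, h4⟩
  have h9 : m t ≤ f t + {σ ∈ S t | ¬ σ.Nodup}.ncard := by
    unfold m f
    have hsub : S t ⊆ {σ ∈ S t | σ.Nodup} ∪ {σ ∈ S t | ¬ σ.Nodup} := by
      intro σ hσ
      by_cases c : σ.Nodup
      · exact Or.inl ⟨hσ, c⟩
      · exact Or.inr ⟨hσ, c⟩
    refine (Set.ncard_le_ncard hsub ?_).trans (Set.ncard_union_le _ _)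
    apply (S_fin t).subset
    rintro σ (h | h)
    · exact h.1
    · exact h.1
  omega

end Pool.Agent.UFC
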