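import Pool.Agent.UFC.St

/-!
# PAIR, ODD: merging pairs of equal denominators and halving
-/

set_option autoImplicit false

noncomputable section

namespace Pool.Agent.UFC

open Finset

namespace PAIR

/-- merge the pairs `P + P` and halve -/
def mh (P σ : Multiset ℕ) : Multiset ℕ := 2 ::ₘ (P + (σ - (P + P)).map (2 * ·))

theorem card_two {P σ : Multiset ℕ} {t : ℕ} (hσ : Multiset.card σ = t) (hP : P + P ≤ σ) :
    2 * Multiset.card P ≤ t := by
  have := Multiset.card_le_card hP
  rw [Multiset.card_add] at this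
  omega

theorem mh_mem {P σ : Multiset ℕ} {t : ℕ} (hσ : σ ∈ S t) (hP : P + P ≤ σ)
    (h1 : 1 ≤ Multiset.card P) : mh P σ ∈ S (t + 1 - Multiset.card P) := by
  have h2 := card_two hσ.1 hP
  have hd : P + P + (σ - (P + P)) = σ := add_tsub_cancel_of_le hP
  refine ⟨?_, ?_, ?_⟩
  · unfold mh
    rw [Multiset.card_cons, Multiset.card_add, Multiset.card_map, Multiset.card_sub hP,
      Multiset.card_add, hσ.1]
    omega
  · intro x hx
    unfold mh at hx
    rw [Multiset.mem_cons, Multiset.mem_add, Multiset.mem_map] at hx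
    rcases hx with rfl | hx | ⟨y, hy, rfl⟩
    · norm_num
    · exact hσ.2.1 x (Multiset.mem_of_le hP (Multiset.mem_add.2 (Or.inl hx)))
    · have := hσ.2.1 y (Multiset.mem_of_le (Multiset.sub_le_self _ _) hy)
      omega
  · unfold mh
    rw [rs_cons, rs_add, rs_map_mul]
    have h3 := hσ.2.2
    rw [← hd, rs_add, rs_add] at h3
    push_cast
    linarith

/-- the multiset is determined by the image and the pairs -/
theorem mh_inj {P σ σ' : Multiset ℕ} (hP : P + P ≤ σ) (hP' : P + P ≤ σ')
    (h : mh P σ = mh P σ') : σ = σ' := by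
  unfold mh at h
  have h1 := add_left_cancel ((Multiset.cons_inj_right 2).1 h)
  have h2 : σ - (P + P) = σ' - (P + P) :=
    Multiset.map_injective (fun x y hxy => Nat.eq_of_mul_eq_mul_left (by norm_num) hxy) h1
  rw [← add_tsub_cancel_of_le hP, ← add_tsub_cancel_of_le hP', h2]

/-- odd elements of the image -/
theorem filter_mh {P σ : Multiset ℕ} (ho : ∀ x ∈ P, Odd x) : (mh P σ).filter Odd = P := by
  unfold mh
  rw [Multiset.filter_cons_of_neg _ (by decide), Multiset.filter_add]
  have h1 : P.filter Odd = P := Multiset.filter_eq_self.2 ho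
  have h2 : ((σ - (P + P)).map (2 * ·)).filter Odd = 0 := by
    rw [Multiset.filter_eq_nil]
    intro x hx
    rw [Multiset.mem_map] at hx
    obtain ⟨y, -, rfl⟩ := hx
    rw [Nat.not_odd_iff_even]
    exact even_two_mul y
  rw [h1, h2, add_zero]

end PAIR

open PAIR

theorem t_ODD : S_ODD := by
  intro s t hs
  choose! P hP using fun (σ : Multiset ℕ) (h : σ ∈ {σ ∈ S t | ∃ P : Multiset ℕ,
    Multiset.card P = s ∧ (∀ x ∈ P, Odd x) ∧ P + P ≤ σ}) => h.2
  unfold m
  refine Set.ncard_le_ncard_of_injOn (fun σ => mh (P σ) σ) ?_ ?_ (S_fin _)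
  · intro σ hσ
    have h1 := mh_mem hσ.1 (hP σ hσ).2.2 (by rw [(hP σ hσ).1]; exact hs)
    rw [(hP σ hσ).1] at h1
    exact h1
  · intro σ hσ σ' hσ' h
    simp only at h
    have h1 := filter_mh (σ := σ) (hP σ hσ).2.1
    have h2 := filter_mh (σ := σ') (hP σ' hσ').2.1
    have h3 : P σ = P σ' := by rw [← h1, ← h2, h]
    have h4 := (hP σ' hσ').2.2
    rw [← h3] at h h4
    exact mh_inj (hP σ hσ).2.2 h4 h

theorem t_PAIR : S_PAIR := by
  classical
  intro s t hs
  choose! P hP using fun (σ : Multiset ℕ) (h : σ ∈ A s t) => h.2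
  have h1 : (A s t).ncard ≤ ((Sf (t + 1 - s)).sigma fun τ => (Multiset.powersetCard s τ).toFinset).card := by
    rw [← Set.ncard_coe_finset]
    refine Set.ncard_le_ncard_of_injOn (fun σ => (⟨mh (P σ) σ, P σ⟩ : (_ : Multiset ℕ) × Multiset ℕ))
      ?_ ?_ (Finset.finite_toSet _)
    · intro σ hσ
      rw [mem_coe, mem_sigma]
      refine ⟨?_, ?_⟩
      · rw [mem_Sf]
        have h1 := mh_mem hσ.1 (hP σ hσ).2 (by rw [(hP σ hσ).1]; exact hs)
        rw [(hP σ hσ).1] at h1
        exact h1
      · rw [Multiset.mem_toFinset, Multiset.mem_powersetCard]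
        refine ⟨?_, (hP σ hσ).1⟩
        unfold mh
        exact (Multiset.le_add_right _ _).trans (Multiset.le_cons_self _ _)
    · intro σ hσ σ' hσ' h
      simp only [Sigma.mk.injEq] at h
      obtain ⟨h1, h2⟩ := h
      have h2 := eq_of_heq h2
      have h4 := (hP σ' hσ').2
      rw [← h2] at h1 h4
      exact mh_inj (hP σ hσ).2 h4 h1
  refine h1.trans ?_
  rw [card_sigma, m_eq_card, mul_comm]
  have h2 : ∀ τ ∈ Sf (t + 1 - s), (Multiset.powersetCard s τ).toFinset.card ≤ t ^ s := by
    intro τ hτ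
    rw [mem_Sf] at hτ
    calc (Multiset.powersetCard s τ).toFinset.card ≤ Multiset.card (Multiset.powersetCard s τ) :=
          Multiset.toFinset_card_le _
      _ = (t + 1 - s).choose s := by rw [Multiset.card_powersetCard, hτ.1]
      _ ≤ (t + 1 - s) ^ s := Nat.choose_le_pow _ _
      _ ≤ t ^ s := Nat.pow_le_pow_left (by omega) s
  calc ∑ τ ∈ Sf (t + 1 - s), (Multiset.powersetCard s τ).toFinset.card
      ≤ ∑ _τ ∈ Sf (t + 1 - s), t ^ s := Finset.sum_le_sum h2
    _ = (Sf (t + 1 - s)).card * t ^ s := by rw [sum_const, smul_eq_mul]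

end Pool.Agent.UFC
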