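import Pool.Agent.UFC.Core

/-!
# Statements of the modules (MP_dcc108_nt, Comparison), with proofs in the doc-strings
-/

set_option autoImplicit false

noncomputable section

namespace Pool.Agent.UFC

open Finset

/-- SUP.  `κ ∈ S (r+1)`, `a` its maximum, `σ ∈ S t`: `(κ - a) + a σ ∈ S (r+t)`; the entries of `a σ` are
`≥ 2a` (`two_le`), those of `κ - a` are `≤ a`.  Injective: if the images of `(κ, σ)` and `(κ', σ')` (maxima
`a ≤ a'`) agree, the filter `≤ a` of the image is `κ - a`, the filter `≤ a'` is `κ' - a'`, both of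
cardinality `r`, so they are equal; the sums give `a = a'`. -/
def S_SUP : Prop := ∀ r t : ℕ, 2 ≤ t → m (r + 1) * m t ≤ m (r + t)

/-- PAIR.  `σ ∈ A s t` with `P + P ≤ σ`, `card P = s`: `τ = 2 ::ₘ (P + (σ - (P + P)).map (2 * ·))` is in
`S (t + 1 - s)` (sum `1/2 + rs P + (1 - 2 rs P)/2`), and `(P, τ)` determines `σ`.  Choose `P` for every `σ`:
an injection to the pairs `(τ, P)`, `τ ∈ S (t + 1 - s)`, `P ≤ τ`, `card P = s`; for a given `τ` there are at most
`(t + 1 - s).choose s ≤ t ^ s` such `P` (`Multiset.card_powersetCard`). -/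
def S_PAIR : Prop := ∀ s t : ℕ, 1 ≤ s → (A s t).ncard ≤ t ^ s * m (t + 1 - s)

/-- ODD.  The same with `P` odd: `P` is the multiset of the odd elements of `τ`, so `σ ↦ τ` is injective. -/
def S_ODD : Prop := ∀ s t : ℕ, 1 ≤ s →
  {σ ∈ S t | ∃ P : Multiset ℕ, Multiset.card P = s ∧ (∀ x ∈ P, Odd x) ∧ P + P ≤ σ}.ncard ≤
    m (t + 1 - s)

/-- EQ.  `(σ, x) ↦ (σ - {x, x} + {x/2}, x/2)` is a bijection from the pairs (`σ ∈ S t`, `x` even with
multiplicity `≥ 2` in `σ`) to the pairs (`σ' ∈ S (t-1)`, `y ∈ σ'`). -/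
def S_EQ : Prop := ∀ t : ℕ, 1 ≤ t → ∑ σ ∈ Sf t, ev σ = ∑ σ ∈ Sf (t - 1), σ.toFinset.card

/-- QUAD.  `x = 2 y` with multiplicity `≥ 4`: `σ ↦ (σ - {x,x,x,x} + {y,y}, y)`, injective to the pairs
(`σ'' ∈ S (t-2)`, `y ∈ σ''`). -/
def S_QUAD : Prop := ∀ t : ℕ, {σ ∈ S t | ∃ x, Even x ∧ 4 ≤ σ.count x}.ncard ≤ t * m (t - 2)

/-- ONE.  `σ ∈ S t` with a repeated element, no even repeated element and not two pairs of odd elements:
there is exactly one repeated element `x`, it is odd with multiplicity `2` or `3`.  Then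
`τ = {2, x} + 2 (σ - {x, x})` is in `S t`, without repeated elements, `x` is its only odd element and `σ` is
determined by `τ`. -/
def S_ONE : Prop := ∀ t : ℕ, 2 ≤ t →
  {σ ∈ S t | ¬ σ.Nodup ∧ ev σ = 0 ∧
    ¬ ∃ P : Multiset ℕ, Multiset.card P = 2 ∧ (∀ x ∈ P, Odd x) ∧ P + P ≤ σ}.ncard ≤ f t

/-- STAR (from EQ, ODD, ONE): `S t` is the union of the multisets without repeated elements, those with
`1 ≤ ev`, those of ODD with `s = 2` and those of ONE. -/
def S_STAR : Prop := ∀ t : ℕ, 2 ≤ t →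
  m t ≤ 2 * f t + t * m (t - 1) ∧
  {σ ∈ S t | ¬ σ.Nodup}.ncard ≤ f t + t * m (t - 1)

/-- DST.  `∑ (μ_x - 1) ≤ 2 ∑ ⌊μ_x / 2⌋`: if `σ` has at most `t - 2 s` distinct elements, it has `s` disjoint
equal pairs (`P = ∑_x ⌊μ_x / 2⌋ x` and a sub-multiset of it). -/
def S_DST : Prop := ∀ s t : ℕ, ∀ σ ∈ S t, σ.toFinset.card + 2 * s ≤ t → σ ∈ A s t

/-- PRD.  If `σ` does not have `s` disjoint equal pairs and no multiplicity is `≥ 4`, the product of the
factorials of the multiplicities is `≤ 6 ^ s` (at most `s` elements have multiplicity `2` or `3`). -/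
def S_PRD : Prop := ∀ s t : ℕ, ∀ σ ∈ S t, σ ∉ A s t → (∀ x, σ.count x < 4) →
  ∏ x ∈ σ.toFinset, (σ.count x).factorial ≤ 6 ^ s

/-- BRA: tuples and multisets. -/
def S_BRA : Prop := ∀ t : ℕ, M t = m t ∧ F t = f t ∧
  ∀ k : ℕ, {x ∈ Sol t | Monotone x ∧ (univ.image x).card < k}.ncard =
    {σ ∈ S t | σ.toFinset.card < k}.ncard

/-- BRB: the ordered solutions.  `x ↦ (sorted x, permutation)` for the first part.  Second part: the map
`(x, π) ↦ x ∘ π` from (monotone `x` with `∏ μ! ≤ K`) × permutations to `Sol t` has fibres of at most `K` elements: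
if `x ∘ π = x' ∘ π'` then `x = x'` (`Tuple.unique_monotone`), and the number of `π` with `x ∘ π = z` is at
most the order of the stabiliser, `DomMulAct.stabilizer_card'`. -/
def S_BRB : Prop := ∀ t : ℕ, N t ≤ t.factorial * m t ∧
  ∀ K : ℕ, t.factorial * {σ ∈ S t | ∏ x ∈ σ.toFinset, (σ.count x).factorial ≤ K}.ncard ≤ K * N t

/-- BRC: weighted form, for the constant `7/12`. -/
def S_BRC : Prop := ∀ t : ℕ, ∀ K : ℕ, 1 ≤ K →
  t.factorial * (K * f t + {σ ∈ S t | ¬ σ.Nodup ∧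
    ∏ x ∈ σ.toFinset, (σ.count x).factorial ≤ K}.ncard) ≤ K * N t

/-- GRO: the doubly exponential lower bound. -/
def S_GRO : Prop := ∃ t₀ : ℕ, ∀ t ≥ t₀, Real.exp (Real.exp ((t : ℝ) / 400)) ≤ (m t : ℝ)

end Pool.Agent.UFC
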