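import Pool.Agent.UFC.St

/-!
# SUP: `m (r + 1) * m t ≤ m (r + t)`
-/

set_option autoImplicit false

noncomputable section

namespace Pool.Agent.UFC

open Finset

namespace SUP

/-- the maximum -/
def mx (κ : Multiset ℕ) : ℕ := κ.fold max 0

theorem le_mx {κ : Multiset ℕ} {x : ℕ} (hx : x ∈ κ) : x ≤ mx κ := by
  unfold mx
  induction κ using Multiset.induction_on with
  | empty => simp at hx
  | cons a κ ih =>
    rw [Multiset.fold_cons_left]
    rw [Multiset.mem_cons] at hx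
    rcases hx with rfl | hx
    · exact le_max_left _ _
    · exact (ih hx).trans (le_max_right _ _)

theorem mx_mem {κ : Multiset ℕ} (h : κ ≠ 0) : mx κ ∈ κ := by
  unfold mx
  induction κ using Multiset.induction_on with
  | empty => exact absurd rfl h
  | cons a κ ih =>
    rw [Multiset.fold_cons_left]
    by_cases hk : κ = 0
    · subst hk
      simp
    · have := ih hk
      rcases max_choice a (κ.fold max 0) with h1 | h1
      · rw [h1]
        exact Multiset.mem_cons_self _ _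
      · rw [h1]
        exact Multiset.mem_cons_of_mem this

/-- the image -/
def im (p : Multiset ℕ × Multiset ℕ) : Multiset ℕ := p.1.erase (mx p.1) + p.2.map (mx p.1 * ·)

theorem ne_zero {r : ℕ} {κ : Multiset ℕ} (hκ : κ ∈ S (r + 1)) : κ ≠ 0 := by
  rintro rfl
  have := hκ.1
  simp at this

theorem im_mem {r t : ℕ} {κ σ : Multiset ℕ} (hκ : κ ∈ S (r + 1)) (hσ : σ ∈ S t) :
    im (κ, σ) ∈ S (r + t) := by
  have h0 := mx_mem (ne_zero hκ)
  have hpos := hκ.2.1 _ h0
  refine ⟨?_, ?_, ?_⟩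
  · unfold im
    rw [Multiset.card_add, Multiset.card_map, Multiset.card_erase_of_mem h0, hκ.1, hσ.1]
    simp
  · intro x hx
    unfold im at hx
    rw [Multiset.mem_add] at hx
    rcases hx with hx | hx
    · exact hκ.2.1 _ (Multiset.mem_of_mem_erase hx)
    · rw [Multiset.mem_map] at hx
      obtain ⟨y, hy, rfl⟩ := hx
      exact Nat.mul_pos hpos (hσ.2.1 _ hy)
  · unfold im
    simp only
    rw [rs_add, rs_map_mul, hσ.2.2, mul_one]
    have h1 := hκ.2.2
    rw [← Multiset.cons_erase h0, rs_cons] at h1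
    linarith

theorem filter_im {r t : ℕ} (ht : 2 ≤ t) {κ σ : Multiset ℕ} (hκ : κ ∈ S (r + 1)) (hσ : σ ∈ S t) :
    (im (κ, σ)).filter (· ≤ mx κ) = κ.erase (mx κ) := by
  have h0 := mx_mem (ne_zero hκ)
  have hpos := hκ.2.1 _ h0
  unfold im
  rw [Multiset.filter_add]
  have h1 : (κ.erase (mx κ)).filter (· ≤ mx κ) = κ.erase (mx κ) := by
    rw [Multiset.filter_eq_self]
    intro x hx
    exact le_mx (Multiset.mem_of_mem_erase hx)
  have h2 : (σ.map (mx κ * ·)).filter (· ≤ mx κ) = 0 := by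
    rw [Multiset.filter_eq_nil]
    intro x hx
    rw [Multiset.mem_map] at hx
    obtain ⟨y, hy, rfl⟩ := hx
    have := two_le ht hσ hy
    nlinarith
  rw [h1, h2, add_zero]

theorem inj_aux {r t : ℕ} (ht : 2 ≤ t) {κ σ κ' σ' : Multiset ℕ} (hκ : κ ∈ S (r + 1)) (hσ : σ ∈ S t)
    (hκ' : κ' ∈ S (r + 1)) (hσ' : σ' ∈ S t) (h : im (κ, σ) = im (κ', σ')) (hle : mx κ ≤ mx κ') :
    κ = κ' ∧ σ = σ' := by
  have h1 := filter_im ht hκ hσ
  have h2 := filter_im ht hκ' hσ'
  rw [← h] at h2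
  have h3 : (im (κ, σ)).filter (· ≤ mx κ) ≤ (im (κ, σ)).filter (· ≤ mx κ') :=
    Multiset.monotone_filter_right _ (fun x hx => hx.trans hle)
  have h0 := mx_mem (ne_zero hκ)
  have h0' := mx_mem (ne_zero hκ')
  have h4 : κ.erase (mx κ) = κ'.erase (mx κ') := by
    rw [h1, h2] at h3
    apply Multiset.eq_of_le_of_card_le h3
    rw [Multiset.card_erase_of_mem h0, Multiset.card_erase_of_mem h0', hκ.1, hκ'.1]
  have h5 : mx κ = mx κ' := by
    have e1 := hκ.2.2
    have e2 := hκ'.2.2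
    rw [← Multiset.cons_erase h0, rs_cons] at e1
    rw [← Multiset.cons_erase h0', rs_cons, ← h4] at e2
    have e3 : (1 : ℚ) / (mx κ : ℚ) = 1 / (mx κ' : ℚ) := by linarith
    have p1 : (0 : ℚ) < mx κ := by exact_mod_cast hκ.2.1 _ h0
    have p2 : (0 : ℚ) < mx κ' := by exact_mod_cast hκ'.2.1 _ h0'
    rw [div_eq_div_iff p1.ne' p2.ne', one_mul, one_mul] at e3
    exact_mod_cast e3.symm
  have h6 : κ = κ' := by
    rw [← Multiset.cons_erase h0, ← Multiset.cons_erase h0', h4, h5]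
  refine ⟨h6, ?_⟩
  subst h6
  unfold im at h
  simp only at h
  have h7 := add_left_cancel h
  have hpos := hκ.2.1 _ h0
  exact Multiset.map_injective (fun x y hxy => Nat.eq_of_mul_eq_mul_left hpos hxy) h7

end SUP

theorem t_SUP : S_SUP := by
  intro r t ht
  unfold m
  rw [← Set.ncard_prod]
  refine Set.ncard_le_ncard_of_injOn SUP.im ?_ ?_ (S_fin _)
  · rintro ⟨κ, σ⟩ ⟨hκ, hσ⟩
    exact SUP.im_mem hκ hσ
  · rintro ⟨κ, σ⟩ ⟨hκ, hσ⟩ ⟨κ', σ'⟩ ⟨hκ', hσ'⟩ h
    rcases le_total (SUP.mx κ) (SUP.mx κ') with hle | hle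
    · obtain ⟨h1, h2⟩ := SUP.inj_aux ht hκ hσ hκ' hσ' h hle
      exact Prod.ext h1 h2
    · obtain ⟨h1, h2⟩ := SUP.inj_aux ht hκ' hσ' hκ hσ h.symm hle
      exact Prod.ext h1.symm h2.symm

end Pool.Agent.UFC
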