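import Pool.Agent.UFC.One
import Pool.Agent.UFC.Sup
import Pool.Agent.Lib_helper77.EF.LS
import Pool.Agent.Lib_helper83.EF.DBridge

/-!
# Further lemmas: monotonicity of `f`, the class of `ONE` has a small product, growth
-/

set_option autoImplicit false

noncomputable section

namespace Pool.Agent.UFC

open Finset

/-- `f` is non-decreasing. -/
theorem f_succ {t : ℕ} (ht : 2 ≤ t) : f t ≤ f (t + 1) := by
  unfold f
  refine Set.ncard_le_ncard_of_injOn (fun σ => 2 ::ₘ σ.map (2 * ·)) ?_ ?_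
    ((S_fin _).subset fun σ hσ => hσ.1)
  · rintro σ ⟨hσ, hn⟩
    refine ⟨⟨?_, ?_, ?_⟩, ?_⟩
    · rw [Multiset.card_cons, Multiset.card_map, hσ.1]
    · intro x hx
      rw [Multiset.mem_cons, Multiset.mem_map] at hx
      rcases hx with rfl | ⟨y, hy, rfl⟩
      · norm_num
      · have := hσ.2.1 y hy
        omega
    · rw [rs_cons, rs_map_mul, hσ.2.2]
      norm_num
    · rw [Multiset.nodup_cons, Multiset.mem_map]
      refine ⟨?_, hn.map (fun a b hab => Nat.eq_of_mul_eq_mul_left (by norm_num) hab)⟩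
      rintro ⟨y, hy, h⟩
      have := two_le ht hσ hy
      omega
  · intro σ _ σ' _ h
    simp only at h
    exact Multiset.map_injective (fun x y hxy => Nat.eq_of_mul_eq_mul_left (by norm_num) hxy)
      ((Multiset.cons_inj_right 2).1 h)

theorem f_mono {t u : ℕ} (ht : 2 ≤ t) (htu : t ≤ u) : f t ≤ f u := by
  induction u, htu using Nat.le_induction with
  | base => exact le_rfl
  | succ u hu ih => exact ih.trans (f_succ (ht.trans hu))

/-- In the class of `ONE` the product of the factorials of the multiplicities is at most `6`. -/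
theorem prod_le_six {t : ℕ} {σ : Multiset ℕ} (_ht : 2 ≤ t) (hσ : σ ∈ S t) (hev : ev σ = 0)
    (hP : ¬ ∃ P : Multiset ℕ, Multiset.card P = 2 ∧ (∀ x ∈ P, Odd x) ∧ P + P ≤ σ) :
    ∏ x ∈ σ.toFinset, (σ.count x).factorial ≤ 6 := by
  classical
  have hodd : ∀ y, 2 ≤ σ.count y → Odd y := by
    intro y hy
    by_contra ho
    rw [Nat.not_odd_iff_even] at ho
    unfold ev at hev
    rw [card_eq_zero, filter_eq_empty_iff] at hev
    exact hev (Multiset.mem_toFinset.2 (Multiset.count_pos.1 (by omega))) ⟨ho, hy⟩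
  have hA : σ ∉ A 2 t := by
    rintro ⟨_, P, hc, hle⟩
    apply hP
    refine ⟨P, hc, ?_, hle⟩
    intro x hx
    apply hodd
    have h1 := Multiset.le_iff_count.1 hle x
    rw [Multiset.count_add] at h1
    have h2 : 1 ≤ P.count x := Multiset.one_le_count_iff_mem.2 hx
    omega
  set R := σ.toFinset.filter fun x => 2 ≤ σ.count x with hR
  have hRR : R.val + R.val ≤ σ := by
    rw [Multiset.le_iff_count]
    intro a
    rw [Multiset.count_add]
    by_cases ha : a ∈ R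
    · have h1 : 2 ≤ σ.count a := (mem_filter.1 ha).2
      have h2 : R.val.count a ≤ 1 := Multiset.nodup_iff_count_le_one.1 R.nodup a
      omega
    · have h2 : R.val.count a = 0 := Multiset.count_eq_zero_of_notMem ha
      omega
  have hc : R.card < 2 := by
    by_contra hlt
    rw [not_lt] at hlt
    obtain ⟨P, hP, hcard⟩ := ONE.exists_sub (s := 2) (Q := R.val) hlt
    exact hA ⟨hσ, P, hcard, (add_le_add hP hP).trans hRR⟩
  have h4 : ∀ x, σ.count x < 4 := by
    intro x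
    by_contra h
    rw [not_lt] at h
    apply hA
    refine ⟨hσ, {x, x}, rfl, ?_⟩
    rw [Multiset.le_iff_count]
    intro a
    by_cases ha : a = x
    · subst ha
      simp
      omega
    · have e1 : Multiset.count a ({x, x} : Multiset ℕ) = 0 := by
        rw [Multiset.count_eq_zero]
        simp [ha]
      rw [Multiset.count_add, e1]
      omega
  have h1 : ∏ x ∈ σ.toFinset, (σ.count x).factorial =
      ∏ x ∈ R, (σ.count x).factorial := by
    symm
    apply prod_subset (filter_subset _ _)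
    intro x hx hxR
    rw [Multiset.mem_toFinset] at hx
    have h2 : ¬ 2 ≤ σ.count x := fun h => hxR (mem_filter.2 ⟨Multiset.mem_toFinset.2 hx, h⟩)
    have h3 : 1 ≤ σ.count x := Multiset.one_le_count_iff_mem.2 hx
    have h5 : σ.count x = 1 := by omega
    rw [h5, Nat.factorial_one]
  rw [h1]
  calc ∏ x ∈ R, (σ.count x).factorial ≤ ∏ _x ∈ R, 6 := by
        apply prod_le_prod'
        intro x _
        have := h4 x
        calc (σ.count x).factorial ≤ (3 : ℕ).factorial := Nat.factorial_le (by omega)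
          _ = 6 := rfl
    _ = 6 ^ R.card := by rw [prod_const]
    _ ≤ 6 ^ 1 := Nat.pow_le_pow_right (by norm_num) (by omega)
    _ = 6 := by norm_num

/-- The multisets without repeated elements, or without product at most `6`, from `EQ`, `ODD`. -/
theorem bad_card (hEQ : S_EQ) {t : ℕ} (ht : 2 ≤ t) :
    m t ≤ f t + {σ ∈ S t | ¬ σ.Nodup ∧ ∏ x ∈ σ.toFinset, (σ.count x).factorial ≤ 6}.ncard +
      t * m (t - 1) := by
  classical
  have h1 : {σ ∈ S t | 1 ≤ ev σ}.ncard ≤ (t - 1) * m (t - 1) := by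
    have e1 : {σ ∈ S t | 1 ≤ ev σ} = (((Sf t).filter fun σ => 1 ≤ ev σ : Finset (Multiset ℕ)) :
        Set (Multiset ℕ)) := by
      ext σ
      rw [mem_coe, mem_filter, mem_Sf]
      rfl
    rw [e1, Set.ncard_coe_finset, card_eq_sum_ones]
    calc ∑ σ ∈ (Sf t).filter (fun σ => 1 ≤ ev σ), 1
        ≤ ∑ σ ∈ (Sf t).filter (fun σ => 1 ≤ ev σ), ev σ :=
          sum_le_sum fun σ hσ => (mem_filter.1 hσ).2
      _ ≤ ∑ σ ∈ Sf t, ev σ := sum_le_sum_of_subset (filter_subset _ _)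
      _ = ∑ σ ∈ Sf (t - 1), σ.toFinset.card := hEQ t (by omega)
      _ ≤ ∑ σ ∈ Sf (t - 1), (t - 1) := by
          apply sum_le_sum
          intro σ hσ
          rw [mem_Sf] at hσ
          exact (Multiset.toFinset_card_le σ).trans hσ.1.le
      _ = (t - 1) * m (t - 1) := by rw [sum_const, smul_eq_mul, m_eq_card, mul_comm]
  have h2 := t_ODD 2 t (by norm_num)
  have e2 : t + 1 - 2 = t - 1 := by omega
  rw [e2] at h2
  have hsub : S t ⊆ ({σ ∈ S t | σ.Nodup} ∪
      {σ ∈ S t | ¬ σ.Nodup ∧ ∏ x ∈ σ.toFinset, (σ.count x).factorial ≤ 6}) ∪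
      ({σ ∈ S t | 1 ≤ ev σ} ∪
        {σ ∈ S t | ∃ P : Multiset ℕ, Multiset.card P = 2 ∧ (∀ x ∈ P, Odd x) ∧ P + P ≤ σ}) := by
    intro σ hσ
    by_cases c0 : σ.Nodup
    · exact Or.inl (Or.inl ⟨hσ, c0⟩)
    by_cases c1 : 1 ≤ ev σ
    · exact Or.inr (Or.inl ⟨hσ, c1⟩)
    by_cases c2 : ∃ P : Multiset ℕ, Multiset.card P = 2 ∧ (∀ x ∈ P, Odd x) ∧ P + P ≤ σ
    · exact Or.inr (Or.inr ⟨hσ, c2⟩)
    · exact Or.inl (Or.inr ⟨hσ, c0, prod_le_six ht hσ (by omega) c2⟩)
  have hfin : (({σ ∈ S t | σ.Nodup} ∪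
      {σ ∈ S t | ¬ σ.Nodup ∧ ∏ x ∈ σ.toFinset, (σ.count x).factorial ≤ 6}) ∪
      ({σ ∈ S t | 1 ≤ ev σ} ∪
        {σ ∈ S t | ∃ P : Multiset ℕ, Multiset.card P = 2 ∧ (∀ x ∈ P, Odd x) ∧
          P + P ≤ σ})).Finite := by
    apply (S_fin t).subset
    rintro σ ((h | h) | (h | h))
    · exact h.1
    · exact h.1
    · exact h.1
    · exact h.1
  have h5 := Set.ncard_le_ncard hsub hfin
  have h6 := Set.ncard_union_le ({σ ∈ S t | σ.Nodup} ∪
      {σ ∈ S t | ¬ σ.Nodup ∧ ∏ x ∈ σ.toFinset, (σ.count x).factorial ≤ 6})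
      ({σ ∈ S t | 1 ≤ ev σ} ∪
        {σ ∈ S t | ∃ P : Multiset ℕ, Multiset.card P = 2 ∧ (∀ x ∈ P, Odd x) ∧ P + P ≤ σ})
  have h7 := Set.ncard_union_le {σ ∈ S t | σ.Nodup}
      {σ ∈ S t | ¬ σ.Nodup ∧ ∏ x ∈ σ.toFinset, (σ.count x).factorial ≤ 6}
  have h8 := Set.ncard_union_le {σ ∈ S t | 1 ≤ ev σ}
        {σ ∈ S t | ∃ P : Multiset ℕ, Multiset.card P = 2 ∧ (∀ x ∈ P, Odd x) ∧ P + P ≤ σ}
  change m t ≤ _ at h5
  change _ ≤ f t + _ at h7
  obtain ⟨u, rfl⟩ : ∃ u, t = u + 1 := ⟨t - 1, by omega⟩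
  rw [Nat.add_sub_cancel] at h1 h2 ⊢
  have h9 : (u + 1) * m u = u * m u + m u := by ring
  omega

/-- The doubly exponential lower bound, from the bridge. -/
theorem t_GRO (hBRA : S_BRA) : S_GRO := by
  have hfin : ∀ t, (Pool.Agent.Lib_helper83.EF.IncSol t).Finite := fun t =>
    (sol_fin t).subset (Pool.Agent.Lib_helper83.EF.incSol_subset t)
  obtain ⟨t₀, h⟩ := Pool.Agent.Lib_helper83.EF.inc_lower Pool.Agent.Lib_helper77.EF.ls hfin
  refine ⟨t₀, fun t ht => (h t ht).trans ?_⟩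
  rw [← (hBRA t).1]
  have h1 : (Pool.Agent.Lib_helper83.EF.IncSol t).ncard ≤ M t := by
    unfold M
    refine Set.ncard_le_ncard ?_ ((sol_fin t).subset fun x hx => hx.1)
    intro x hx
    exact ⟨hx.2, hx.1.monotone⟩
  exact_mod_cast h1

end Pool.Agent.UFC
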